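import Pool.Agent.Lib.MP_147277_coZ.Sound

/-! # Symmetries of the search on `ZMod 27` -/

set_option autoImplicit false
set_option maxRecDepth 100000

namespace Pool.Agent.Lib.MP_147277_coZ

/-- Symmetries of one coordinate. -/
structure Af (f : ℕ → ℕ) : Prop where
  lt : ∀ x, f x < 27
  surj : ∀ y, y < 27 → ∃ x, x < 27 ∧ f x = y
  inj : ∀ x y, x < 27 → y < 27 → f x = f y → x = y
  near : ∀ a b c, a < 27 → b < 27 → c < 27 → (a + c + 55 - 2 * b) % 27 < 3 →
    (f a + f c + 55 - 2 * f b) % 27 < 3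
  step : ∀ x y w, x < 27 → y < 27 → ((x + 27 - y) % 27 = w ∨ (x + 27 - y) % 27 = 27 - w) →
    ((f x + 27 - f y) % 27 = w ∨ (f x + 27 - f y) % 27 = 27 - w)

theorem Af.shift (s : ℕ) : Af (fun x => (x + s) % 27) where
  lt := fun x => Nat.mod_lt _ (by norm_num)
  surj := fun y hy => ⟨(y + 27 * (s + 1) - s) % 27, Nat.mod_lt _ (by norm_num), by
    show ((y + 27 * (s + 1) - s) % 27 + s) % 27 = y
    omega⟩
  inj := fun x y hx hy h => by
    have h' : (x + s) % 27 = (y + s) % 27 := h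
    omega
  near := fun a b c ha hb hc h => by
    show ((a + s) % 27 + (c + s) % 27 + 55 - 2 * ((b + s) % 27)) % 27 < 3
    omega
  step := fun x y w hx hy h => by
    show (((x + s) % 27 + 27 - (y + s) % 27) % 27 = w ∨
      ((x + s) % 27 + 27 - (y + s) % 27) % 27 = 27 - w)
    have e : ((x + s) % 27 + 27 - (y + s) % 27) % 27 = (x + 27 - y) % 27 := by omega
    rw [e]
    exact h

theorem Af.neg (s : ℕ) : Af (fun x => (s + 27 - x) % 27) where
  lt := fun x => Nat.mod_lt _ (by norm_num)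
  surj := fun y hy => ⟨(s + 27 - y) % 27, Nat.mod_lt _ (by norm_num), by
    show (s + 27 - (s + 27 - y) % 27) % 27 = y
    omega⟩
  inj := fun x y hx hy h => by
    have h' : (s + 27 - x) % 27 = (s + 27 - y) % 27 := h
    omega
  near := fun a b c ha hb hc h => by
    show ((s + 27 - a) % 27 + (s + 27 - c) % 27 + 55 - 2 * ((s + 27 - b) % 27)) % 27 < 3
    have h0 : (a + c + 54 - 2 * b + 1) % 27 < 3 := by
      have e : a + c + 54 - 2 * b + 1 = a + c + 55 - 2 * b := by omega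
      rwa [e]
    have h1 : ((a + c + 54 - 2 * b) + ((s + 27 - a) % 27 + (s + 27 - c) % 27 + 54 -
      2 * ((s + 27 - b) % 27))) % 27 = 0 := by omega
    have h2 := neg3 h1 h0
    have e : (s + 27 - a) % 27 + (s + 27 - c) % 27 + 54 - 2 * ((s + 27 - b) % 27) + 1 =
      (s + 27 - a) % 27 + (s + 27 - c) % 27 + 55 - 2 * ((s + 27 - b) % 27) := by omega
    rwa [e] at h2
  step := fun x y w hx hy h => by
    show (((s + 27 - x) % 27 + 27 - (s + 27 - y) % 27) % 27 = w ∨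
      ((s + 27 - x) % 27 + 27 - (s + 27 - y) % 27) % 27 = 27 - w)
    have e : (((s + 27 - x) % 27 + 27 - (s + 27 - y) % 27) % 27 +
      (x + 27 - y) % 27) % 27 = 0 := by omega
    have e1 : ((s + 27 - x) % 27 + 27 - (s + 27 - y) % 27) % 27 < 27 := Nat.mod_lt _ (by norm_num)
    have e2 : (x + 27 - y) % 27 < 27 := Nat.mod_lt _ (by norm_num)
    generalize ((s + 27 - x) % 27 + 27 - (s + 27 - y) % 27) % 27 = u at e e1 ⊢
    generalize (x + 27 - y) % 27 = v at e e2 h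
    rcases h with h | h <;> omega

/-- The graph transformed by symmetries of the coordinates. -/
def mp (f g : ℕ → ℕ) (G : ℕ → ℕ → Prop) : ℕ → ℕ → Prop :=
  fun x y => x < 27 ∧ y < 27 ∧ G (f x) (g y)

theorem Gd.mp {G : ℕ → ℕ → Prop} (hG : Gd G) {f g : ℕ → ℕ} (hf : Af f) (hg : Af g) :
    Gd (mp f g G) where
  lt := fun x y h => ⟨h.1, h.2.1⟩
  row := fun x hx => by
    obtain ⟨y', hy'⟩ := hG.row (f x) (hf.lt x)
    obtain ⟨y, hy, rfl⟩ := hg.surj y' (hG.lt _ _ hy').2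
    exact ⟨y, hx, hy, hy'⟩
  col := fun y hy => by
    obtain ⟨x', hx'⟩ := hG.col (g y) (hg.lt y)
    obtain ⟨x, hx, rfl⟩ := hf.surj x' (hG.lt _ _ hx').1
    exact ⟨x, hx, hy, hx'⟩
  fn := fun x y z h1 h2 => hg.inj y z h1.2.1 h2.2.1 (hG.fn _ _ _ h1.2.2 h2.2.2)
  inj := fun x y z h1 h2 => hf.inj x y h1.1 h2.1 (hG.inj _ _ _ h1.2.2 h2.2.2)
  good := fun a b c α β γ h1 h2 h3 h4 h5 => by
    have := hG.good _ _ _ _ _ _ h1.2.2 h2.2.2 h3.2.2 (hf.near a b c h1.1 h2.1 h3.1 h4)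
      (hg.near α β γ h1.2.1 h2.2.1 h3.2.1 h5)
    exact ⟨hf.inj _ _ h1.1 h2.1 this.1, hf.inj _ _ h2.1 h3.1 this.2⟩

theorem Stp.mp {G : ℕ → ℕ → Prop} {f g : ℕ → ℕ} (hf : Af f) (hg : Af g) {w : ℕ}
    (h : Stp (mp f g G) w) : Stp G w := by
  obtain ⟨x, y, X, Y, h1, h2, h3⟩ := h
  refine ⟨f x, g y, f X, g Y, h1.2.2, h2.2.2, ?_⟩
  rcases h3 with ⟨h3, h4⟩ | ⟨h3, h4⟩
  · left
    exact ⟨hf.step x X 1 h1.1 h2.1 h3, hg.step y Y w h1.2.1 h2.2.1 h4⟩
  · right
    exact ⟨hf.step x X w h1.1 h2.1 h3, hg.step y Y 1 h1.2.1 h2.2.1 h4⟩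

theorem Gd.swap {G : ℕ → ℕ → Prop} (hG : Gd G) : Gd (fun x y => G y x) where
  lt := fun x y h => ⟨(hG.lt y x h).2, (hG.lt y x h).1⟩
  row := hG.col
  col := hG.row
  fn := fun x y z h1 h2 => hG.inj y z x h1 h2
  inj := fun x y z h1 h2 => hG.fn z x y h1 h2
  good := fun a b c α β γ h1 h2 h3 h4 h5 => by
    have := hG.good _ _ _ _ _ _ h1 h2 h3 h5 h4
    obtain ⟨r1, r2⟩ := this
    subst r1; subst r2
    exact ⟨hG.fn _ _ _ h1 h2, hG.fn _ _ _ h2 h3⟩

theorem Stp.swap {G : ℕ → ℕ → Prop} {w : ℕ} (h : Stp (fun x y => G y x) w) : Stp G w := by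
  obtain ⟨x, y, X, Y, h1, h2, h3⟩ := h
  refine ⟨y, x, Y, X, h1, h2, ?_⟩
  rcases h3 with ⟨h3, h4⟩ | ⟨h3, h4⟩
  · right; exact ⟨h4, h3⟩
  · left; exact ⟨h4, h3⟩

/-- Normal form when the difference is `(1, ± w)`. -/
theorem norm_one {G : ℕ → ℕ → Prop} (hG : Gd G) {w : ℕ} (hw : 0 < w) (hw' : w < 27)
    {x y X Y : ℕ} (h1 : G x y) (h2 : G X Y) (hx : (x + 27 - X) % 27 = 1)
    (hy : (y + 27 - Y) % 27 = w ∨ (y + 27 - Y) % 27 = 27 - w) :
    ∃ G' : ℕ → ℕ → Prop, Gd G' ∧ G' 0 0 ∧ G' 1 w ∧ ∀ w', Stp G' w' → Stp G w' := by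
  obtain ⟨hxl, hyl⟩ := hG.lt x y h1
  obtain ⟨hXl, hYl⟩ := hG.lt X Y h2
  rcases hy with hy | hy
  · refine ⟨mp (fun x => (x + X) % 27) (fun y => (y + Y) % 27) G,
      hG.mp (Af.shift X) (Af.shift Y), ⟨by norm_num, by norm_num, ?_⟩,
      ⟨by norm_num, hw', ?_⟩, fun w' h => Stp.mp (Af.shift X) (Af.shift Y) h⟩
    · have e1 : (0 + X) % 27 = X := by omega
      have e2 : (0 + Y) % 27 = Y := by omega
      simp only [e1, e2]
      exact h2
    · have e1 : (1 + X) % 27 = x := by omega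
      have e2 : (w + Y) % 27 = y := by omega
      simp only [e1, e2]
      exact h1
  · refine ⟨mp (fun x => (x + X) % 27) (fun y => (Y + 27 - y) % 27) G,
      hG.mp (Af.shift X) (Af.neg Y), ⟨by norm_num, by norm_num, ?_⟩,
      ⟨by norm_num, hw', ?_⟩, fun w' h => Stp.mp (Af.shift X) (Af.neg Y) h⟩
    · have e1 : (0 + X) % 27 = X := by omega
      have e2 : (Y + 27 - 0) % 27 = Y := by omega
      simp only [e1, e2]
      exact h2
    · have e1 : (1 + X) % 27 = x := by omega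
      have e2 : (Y + 27 - w) % 27 = y := by omega
      simp only [e1, e2]
      exact h1

theorem norm_pm {G : ℕ → ℕ → Prop} (hG : Gd G) {w : ℕ} (hw : 0 < w) (hw' : w < 27)
    {x y X Y : ℕ} (h1 : G x y) (h2 : G X Y)
    (hx : (x + 27 - X) % 27 = 1 ∨ (x + 27 - X) % 27 = 26)
    (hy : (y + 27 - Y) % 27 = w ∨ (y + 27 - Y) % 27 = 27 - w) :
    ∃ G' : ℕ → ℕ → Prop, Gd G' ∧ G' 0 0 ∧ G' 1 w ∧ ∀ w', Stp G' w' → Stp G w' := by
  obtain ⟨hxl, hyl⟩ := hG.lt x y h1
  obtain ⟨hXl, hYl⟩ := hG.lt X Y h2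
  rcases hx with hx | hx
  · exact norm_one hG hw hw' h1 h2 hx hy
  · refine norm_one hG hw hw' h2 h1 (by omega) ?_
    rcases hy with hy | hy
    · right; omega
    · left; omega

theorem norm {G : ℕ → ℕ → Prop} (hG : Gd G) {w : ℕ} (hw : 0 < w) (hw' : w < 27)
    (h : Stp G w) :
    ∃ G' : ℕ → ℕ → Prop, Gd G' ∧ G' 0 0 ∧ G' 1 w ∧ ∀ w', Stp G' w' → Stp G w' := by
  obtain ⟨x, y, X, Y, h1, h2, h3⟩ := h
  rcases h3 with ⟨h3, h4⟩ | ⟨h3, h4⟩
  · exact norm_pm hG hw hw' h1 h2 h3 h4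
  · obtain ⟨G', a1, a2, a3, a4⟩ := norm_pm (G := fun x y => G y x) hG.swap hw hw'
      (x := y) (y := x) (X := Y) (Y := X) h1 h2 h4 h3
    exact ⟨G', a1, a2, a3, fun w' h => Stp.swap (a4 w' h)⟩

/-- Exclusion of the step `w`. -/
theorem no_step {fb : List ℕ} {w : ℕ} (hw : 0 < w) (hw' : w < 27) (h : Unsat fb [0, 128 + w])
    {G : ℕ → ℕ → Prop} (hG : Gd G) (hN : ∀ v ∈ fb, ¬ Stp G v) : ¬ Stp G w := by
  intro hs
  obtain ⟨G', h1, h2, h3, h4⟩ := norm hG hw hw' hs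
  refine h G' h1 (fun v hv hv' => hN v hv (h4 v hv')) ?_
  intro p hp
  rw [List.mem_cons, List.mem_singleton] at hp
  rcases hp with rfl | rfl
  · exact h2
  · have e1 : (128 + w) / 128 = 1 := by omega
    have e2 : (128 + w) % 128 = w := by omega
    rw [e1, e2]
    exact h3

/-- The first line: row `14`, up to the point reflection. -/
theorem root {fb : List ℕ} {PS : ℕ} (hS : PSok fb PS) {w : ℕ} (hw' : w < 27) (js : List ℕ)
    (hj : ∀ j ∈ js, j < 27)
    (h : cov PS [0, 128 + w] 28 (js.map (fun j => 1792 + j) ++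
      js.map (fun j => 1792 + (w + 27 - j) % 27)) = true)
    (H : AllU fb [0, 128 + w] (js.map (fun j => 1792 + j))) : Unsat fb [0, 128 + w] := by
  have key : ∀ G : ℕ → ℕ → Prop, Gd G → (∀ w ∈ fb, ¬ Stp G w) →
      (∀ p ∈ [0, 128 + w], G (p / 128) (p % 128)) → ∀ j ∈ js, ¬ G 14 j := by
    intro G hG hN hl j hjs hGj
    refine H.get (List.mem_map_of_mem hjs) G hG hN ?_
    intro q hq
    rcases List.mem_append.1 hq with hq | hq
    · exact hl q hq
    · rw [List.mem_singleton] at hq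
      subst hq
      have := hj j hjs
      have e1 : (1792 + j) / 128 = 14 := by omega
      have e2 : (1792 + j) % 128 = j := by omega
      rw [e1, e2]
      exact hGj
  intro G hG hN hl
  obtain ⟨p, hp, hGp⟩ := cov_sound hG hS hN hl h
  rcases List.mem_append.1 hp with hp | hp
  · obtain ⟨j, hjs, rfl⟩ := List.mem_map.1 hp
    have := hj j hjs
    have e1 : (1792 + j) / 128 = 14 := by omega
    have e2 : (1792 + j) % 128 = j := by omega
    rw [e1, e2] at hGp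
    exact key G hG hN hl j hjs hGp
  · obtain ⟨j, hjs, rfl⟩ := List.mem_map.1 hp
    have hj27 := hj j hjs
    have e1 : (1792 + (w + 27 - j) % 27) / 128 = 14 := by omega
    have e2 : (1792 + (w + 27 - j) % 27) % 128 = (w + 27 - j) % 27 := by omega
    rw [e1, e2] at hGp
    have hG' := hG.mp (Af.neg 1) (Af.neg w)
    refine key _ hG' (fun v hv hv' => hN v hv (Stp.mp (Af.neg 1) (Af.neg w) hv')) ?_ j hjs ?_
    · intro q hq
      rw [List.mem_cons, List.mem_singleton] at hq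
      rcases hq with rfl | rfl
      · refine ⟨by norm_num, by norm_num, ?_⟩
        have h1 := hl (128 + w) (by simp)
        have e3 : (128 + w) / 128 = 1 := by omega
        have e4 : (128 + w) % 128 = w := by omega
        rw [e3, e4] at h1
        have e5 : (1 + 27 - 0 / 128) % 27 = 1 := by norm_num
        have e6 : (w + 27 - 0 % 128) % 27 = w := by omega
        simp only [e5, e6]
        exact h1
      · have e3 : (128 + w) / 128 = 1 := by omega
        have e4 : (128 + w) % 128 = w := by omega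
        rw [e3, e4]
        refine ⟨by norm_num, hw', ?_⟩
        have h1 := hl 0 (by simp)
        have e5 : (1 + 27 - 1) % 27 = 0 := by norm_num
        have e6 : (w + 27 - w) % 27 = 0 := by omega
        simp only [e5, e6]
        exact h1
    · refine ⟨by norm_num, hj27, ?_⟩
      have e5 : (1 + 27 - 14) % 27 = 14 := by norm_num
      simp only [e5]
      exact hGp

/-- The graph of a permutation of `ZMod 27`. -/
def gr (π : Equiv.Perm (ZMod 27)) : ℕ → ℕ → Prop :=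
  fun x y => x < 27 ∧ y < 27 ∧ π (x : ZMod 27) = (y : ZMod 27)

theorem small_iff : ∀ z : ZMod 27, (z.val + 1) % 27 < 3 ↔ |z.valMinAbs| ≤ 1 := by
  decide +kernel

theorem near_iff {a b c : ℕ} (hb : b < 27) :
    (a + c + 55 - 2 * b) % 27 < 3 ↔
      |((a : ZMod 27) + (c : ZMod 27) - 2 * (b : ZMod 27)).valMinAbs| ≤ 1 := by
  rw [← small_iff]
  have h54 : ((54 : ℕ) : ZMod 27) = 0 := by decide
  have e : (a : ZMod 27) + (c : ZMod 27) - 2 * (b : ZMod 27) =
      ((a + c + 54 - 2 * b : ℕ) : ZMod 27) := by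
    rw [Nat.cast_sub (by omega)]
    push_cast
    have : (54 : ZMod 27) = 0 := h54
    rw [this, add_zero]
  rw [e, ZMod.val_natCast]
  have e2 : ((a + c + 54 - 2 * b) % 27 + 1) % 27 = (a + c + 55 - 2 * b) % 27 := by omega
  rw [e2]

theorem cast_inj27 {a b : ℕ} (ha : a < 27) (hb : b < 27) (h : (a : ZMod 27) = (b : ZMod 27)) :
    a = b := by
  have := congrArg ZMod.val h
  rw [ZMod.val_natCast, ZMod.val_natCast, Nat.mod_eq_of_lt ha, Nat.mod_eq_of_lt hb] at this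
  exact this

theorem gd_gr {π : Equiv.Perm (ZMod 27)}
    (h : ∀ a b c : ZMod 27, ¬ (a = b ∧ b = c) → |(a + c - 2 * b).valMinAbs| ≤ 1 →
      2 ≤ |(π a + π c - 2 * π b).valMinAbs|) : Gd (gr π) where
  lt := fun x y h => ⟨h.1, h.2.1⟩
  row := fun x hx => by
    refine ⟨(π (x : ZMod 27)).val, hx, ZMod.val_lt _, ?_⟩
    rw [ZMod.natCast_zmod_val]
  col := fun y hy => by
    refine ⟨(π.symm (y : ZMod 27)).val, ZMod.val_lt _, hy, ?_⟩
    rw [ZMod.natCast_zmod_val, Equiv.apply_symm_apply]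
  fn := fun x y z h1 h2 => cast_inj27 h1.2.1 h2.2.1 (h1.2.2.symm.trans h2.2.2)
  inj := fun x y z h1 h2 => cast_inj27 h1.1 h2.1 (π.injective (h1.2.2.trans h2.2.2.symm))
  good := fun a b c α β γ h1 h2 h3 h4 h5 => by
    by_contra hne
    have h6 : ¬ ((a : ZMod 27) = (b : ZMod 27) ∧ (b : ZMod 27) = (c : ZMod 27)) := by
      rintro ⟨e1, e2⟩
      exact hne ⟨cast_inj27 h1.1 h2.1 e1, cast_inj27 h2.1 h3.1 e2⟩
    have h7 := h _ _ _ h6 ((near_iff h2.1).1 h4)
    rw [h1.2.2, h2.2.2, h3.2.2] at h7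
    have h8 := (near_iff h2.2.1).1 h5
    omega

/-- A good graph has a step `w` with `2 ≤ w ≤ 13`. -/
theorem exists_step {G : ℕ → ℕ → Prop} (hG : Gd G) : ∃ w, 2 ≤ w ∧ w ≤ 13 ∧ Stp G w := by
  obtain ⟨y0, h0⟩ := hG.row 0 (by norm_num)
  obtain ⟨y1, h1⟩ := hG.row 1 (by norm_num)
  have l0 := (hG.lt _ _ h0).2
  have l1 := (hG.lt _ _ h1).2
  have hne : y0 ≠ y1 := by
    intro h
    subst h
    have := hG.inj 0 1 y0 h0 h1
    omega
  have hd : ¬ ((y1 + 27 - y0) % 27 = 1 ∨ (y1 + 27 - y0) % 27 = 26) := by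
    intro h
    have := (hG.good 0 0 1 y0 y0 y1 h0 h0 h1 (by norm_num) (by omega)).2
    omega
  rcases Nat.lt_or_ge 13 ((y1 + 27 - y0) % 27) with h | h
  · refine ⟨27 - (y1 + 27 - y0) % 27, by omega, by omega, 1, y1, 0, y0, h1, h0, ?_⟩
    left
    refine ⟨by norm_num, Or.inr (by omega)⟩
  · refine ⟨(y1 + 27 - y0) % 27, by omega, by omega, 1, y1, 0, y0, h1, h0, ?_⟩
    left
    exact ⟨by norm_num, Or.inl rfl⟩

end Pool.Agent.Lib.MP_147277_coZ
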