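import Pool.Agent.Lib.MP_147277_coZ.C00
import Pool.Agent.Lib.MP_147277_coZ.C01
import Pool.Agent.Lib.MP_147277_coZ.C02
import Pool.Agent.Lib.MP_147277_coZ.C03
import Pool.Agent.Lib.MP_147277_coZ.C04
import Pool.Agent.Lib.MP_147277_coZ.C05
import Pool.Agent.Lib.MP_147277_coZ.C06
import Pool.Agent.Lib.MP_147277_coZ.C07
import Pool.Agent.Lib.MP_147277_coZ.C08
import Pool.Agent.Lib.MP_147277_coZ.C09
import Pool.Agent.Lib.MP_147277_coZ.C10
import Pool.Agent.Lib.MP_147277_coZ.C11
import Pool.Agent.Lib.MP_147277_coZ.C12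
import Pool.Agent.Lib.MP_147277_coZ.C13
import Pool.Agent.Lib.MP_147277_coZ.C14
import Pool.Agent.Lib.MP_147277_coZ.C15
import Pool.Agent.Lib.MP_147277_coZ.C16
import Pool.Agent.Lib.MP_147277_coZ.C17
import Pool.Agent.Lib.MP_147277_coZ.C18
import Pool.Agent.Lib.MP_147277_coZ.C19
import Pool.Agent.Lib.MP_147277_coZ.C20
import Pool.Agent.Lib.MP_147277_coZ.C21
import Pool.Agent.Lib.MP_147277_coZ.C22
import Pool.Agent.Lib.MP_147277_coZ.C23
import Pool.Agent.Lib.MP_147277_coZ.C24
import Pool.Agent.Lib.MP_147277_coZ.C25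
import Pool.Agent.Lib.MP_147277_coZ.C26
import Pool.Agent.Lib.MP_147277_coZ.C27
import Pool.Agent.Lib.MP_147277_coZ.C28
import Pool.Agent.Lib.MP_147277_coZ.C29
import Pool.Agent.Lib.MP_147277_coZ.C30
import Pool.Agent.Lib.MP_147277_coZ.C31
import Pool.Agent.Lib.MP_147277_coZ.C32
import Pool.Agent.Lib.MP_147277_coZ.C33
import Pool.Agent.Lib.MP_147277_coZ.C34
import Pool.Agent.Lib.MP_147277_coZ.C35
import Pool.Agent.Lib.MP_147277_coZ.C36
import Pool.Agent.Lib.MP_147277_coZ.C37
import Pool.Agent.Lib.MP_147277_coZ.C38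
import Pool.Agent.Lib.MP_147277_coZ.C39
import Pool.Agent.Lib.MP_147277_coZ.C40
import Pool.Agent.Lib.MP_147277_coZ.C41
import Pool.Agent.Lib.MP_147277_coZ.C42
import Pool.Agent.Lib.MP_147277_coZ.Root

/-! # Combination of the certificates -/

set_option autoImplicit false
set_option maxRecDepth 100000

namespace Pool.Agent.Lib.MP_147277_coZ

theorem b100001 : Unsat [] [0, 131, 1796, 1926] :=
  branch slf0_ok 4 [257, 270, 271, 272, 273, 274, 277, 278, 279, 280, 281, 282]
    (by decide +kernel)
    ⟨unsat_of_ex slf0_ok c100002,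
      unsat_of_ex slf0_ok c100003,
      unsat_of_ex slf0_ok c100004,
      unsat_of_ex slf0_ok c100005,
      unsat_of_ex slf0_ok c100006,
      unsat_of_ex slf0_ok c100007,
      unsat_of_ex slf0_ok c100008,
      unsat_of_ex slf0_ok c100009,
      unsat_of_ex slf0_ok c100010,
      unsat_of_ex slf0_ok c100011,
      unsat_of_ex slf0_ok c100012,
      unsat_of_ex slf0_ok c100013, trivial⟩

theorem b100020 : Unsat [] [0, 131, 1796, 1933] :=
  branch slf0_ok 4 [257, 266, 267, 268, 270, 271, 272, 273, 274, 275, 276, 277]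
    (by decide +kernel)
    ⟨unsat_of_ex slf0_ok c100021,
      unsat_of_ex slf0_ok c100022,
      unsat_of_ex slf0_ok c100023,
      unsat_of_ex slf0_ok c100024,
      unsat_of_ex slf0_ok c100025,
      unsat_of_ex slf0_ok c100026,
      unsat_of_ex slf0_ok c100027,
      unsat_of_ex slf0_ok c100028,
      unsat_of_ex slf0_ok c100029,
      unsat_of_ex slf0_ok c100030,
      unsat_of_ex slf0_ok c100031,
      unsat_of_ex slf0_ok c100032, trivial⟩

theorem b100034 : Unsat [] [0, 131, 1796, 1935] :=
  branch slf0_ok 26 [1665, 1666, 1670, 1671, 1672, 1673, 1674, 1680, 1689, 1690]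
    (by decide +kernel)
    ⟨unsat_of_ex slf0_ok c100035,
      unsat_of_ex slf0_ok c100036,
      unsat_of_ex slf0_ok c100037,
      unsat_of_ex slf0_ok c100038,
      unsat_of_ex slf0_ok c100039,
      unsat_of_ex slf0_ok c100040,
      unsat_of_ex slf0_ok c100041,
      unsat_of_ex slf0_ok c100042,
      unsat_of_ex slf0_ok c100043,
      unsat_of_ex slf0_ok c100044, trivial⟩

theorem b100045 : Unsat [] [0, 131, 1796, 1938] :=
  branch slf0_ok 26 [1665, 1666, 1670, 1671, 1675, 1676, 1683, 1684, 1685, 1689, 1690]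
    (by decide +kernel)
    ⟨unsat_of_ex slf0_ok c100046,
      unsat_of_ex slf0_ok c100047,
      unsat_of_ex slf0_ok c100048,
      unsat_of_ex slf0_ok c100049,
      unsat_of_ex slf0_ok c100050,
      unsat_of_ex slf0_ok c100051,
      unsat_of_ex slf0_ok c100052,
      unsat_of_ex slf0_ok c100053,
      unsat_of_ex slf0_ok c100054,
      unsat_of_ex slf0_ok c100055,
      unsat_of_ex slf0_ok c100056, trivial⟩

theorem b100000 : Unsat [] [0, 131, 1796] :=
  branch slf0_ok 30 [1926, 1927, 1928, 1929, 1930, 1931, 1932, 1933, 1934, 1935, 1938, 1939, 1940, 1941, 1942, 1943, 1944, 1945, 1946]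
    (by decide +kernel)
    ⟨b100001,
      unsat_of_ex slf0_ok c100014,
      unsat_of_ex slf0_ok c100015,
      unsat_of_ex slf0_ok c100016,
      unsat_of_ex slf0_ok c100017,
      unsat_of_ex slf0_ok c100018,
      unsat_of_ex slf0_ok c100019,
      b100020,
      unsat_of_ex slf0_ok c100033,
      b100034,
      b100045,
      unsat_of_ex slf0_ok c100057,
      unsat_of_ex slf0_ok c100058,
      unsat_of_ex slf0_ok c100059,
      unsat_of_ex slf0_ok c100060,
      unsat_of_ex slf0_ok c100061,
      unsat_of_ex slf0_ok c100062,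
      unsat_of_ex slf0_ok c100063,
      unsat_of_ex slf0_ok c100064, trivial⟩

theorem b200001 : Unsat [] [0, 131, 1797, 1927] :=
  branch slf0_ok 26 [1665, 1672, 1673, 1674, 1675, 1676, 1679, 1680, 1681, 1682, 1688]
    (by decide +kernel)
    ⟨unsat_of_ex slf0_ok c200002,
      unsat_of_ex slf0_ok c200003,
      unsat_of_ex slf0_ok c200004,
      unsat_of_ex slf0_ok c200005,
      unsat_of_ex slf0_ok c200006,
      unsat_of_ex slf0_ok c200007,
      unsat_of_ex slf0_ok c200008,
      unsat_of_ex slf0_ok c200009,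
      unsat_of_ex slf0_ok c200010,
      unsat_of_ex slf0_ok c200011,
      unsat_of_ex slf0_ok c200012, trivial⟩

theorem b200000 : Unsat [] [0, 131, 1797] :=
  branch slf0_ok 30 [1927, 1928, 1929, 1930, 1931, 1932, 1933, 1934, 1935, 1938, 1939, 1940, 1941, 1942, 1943, 1944, 1945, 1946]
    (by decide +kernel)
    ⟨b200001,
      unsat_of_ex slf0_ok c200013,
      unsat_of_ex slf0_ok c200014,
      unsat_of_ex slf0_ok c200015,
      unsat_of_ex slf0_ok c200016,
      unsat_of_ex slf0_ok c200017,
      unsat_of_ex slf0_ok c200018,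
      unsat_of_ex slf0_ok c200019,
      unsat_of_ex slf0_ok c200020,
      unsat_of_ex slf0_ok c200021,
      unsat_of_ex slf0_ok c200022,
      unsat_of_ex slf0_ok c200023,
      unsat_of_ex slf0_ok c200024,
      unsat_of_ex slf0_ok c200025,
      unsat_of_ex slf0_ok c200026,
      unsat_of_ex slf0_ok c200027,
      unsat_of_ex slf0_ok c200028,
      unsat_of_ex slf0_ok c200029, trivial⟩

theorem b300007 : Unsat [] [0, 131, 1798, 1541] :=
  branch slf0_ok 50 [3201, 3202, 3204, 3207, 3208, 3212, 3213, 3214, 3215, 3216, 3217, 3220, 3221, 3222, 3226]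
    (by decide +kernel)
    ⟨unsat_of_ex slf0_ok c300008,
      unsat_of_ex slf0_ok c300009,
      unsat_of_ex slf0_ok c300010,
      unsat_of_ex slf0_ok c300011,
      unsat_of_ex slf0_ok c300012,
      unsat_of_ex slf0_ok c300013,
      unsat_of_ex slf0_ok c300014,
      unsat_of_ex slf0_ok c300015,
      unsat_of_ex slf0_ok c300016,
      unsat_of_ex slf0_ok c300017,
      unsat_of_ex slf0_ok c300018,
      unsat_of_ex slf0_ok c300019,
      unsat_of_ex slf0_ok c300020,
      unsat_of_ex slf0_ok c300021,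
      unsat_of_ex slf0_ok c300022, trivial⟩

theorem b300000 : Unsat [] [0, 131, 1798] :=
  branch slf0_ok 11 [517, 645, 773, 1157, 1285, 1413, 1541, 2053, 2181, 2309, 2437, 2565, 2821, 2949, 3077, 3205, 3333]
    (by decide +kernel)
    ⟨unsat_of_ex slf0_ok c300001,
      unsat_of_ex slf0_ok c300002,
      unsat_of_ex slf0_ok c300003,
      unsat_of_ex slf0_ok c300004,
      unsat_of_ex slf0_ok c300005,
      unsat_of_ex slf0_ok c300006,
      b300007,
      unsat_of_ex slf0_ok c300023,
      unsat_of_ex slf0_ok c300024,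
      unsat_of_ex slf0_ok c300025,
      unsat_of_ex slf0_ok c300026,
      unsat_of_ex slf0_ok c300027,
      unsat_of_ex slf0_ok c300028,
      unsat_of_ex slf0_ok c300029,
      unsat_of_ex slf0_ok c300030,
      unsat_of_ex slf0_ok c300031,
      unsat_of_ex slf0_ok c300032, trivial⟩

theorem b400008 : Unsat [] [0, 131, 1799, 1669] :=
  branch slf0_ok 30 [1924, 1931, 1932, 1933, 1934, 1935, 1938, 1939, 1940, 1944]
    (by decide +kernel)
    ⟨unsat_of_ex slf0_ok c400009,
      unsat_of_ex slf0_ok c400010,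
      unsat_of_ex slf0_ok c400011,
      unsat_of_ex slf0_ok c400012,
      unsat_of_ex slf0_ok c400013,
      unsat_of_ex slf0_ok c400014,
      unsat_of_ex slf0_ok c400015,
      unsat_of_ex slf0_ok c400016,
      unsat_of_ex slf0_ok c400017,
      unsat_of_ex slf0_ok c400018, trivial⟩

theorem b400019 : Unsat [] [0, 131, 1799, 1925] :=
  branch slf0_ok 26 [1668, 1675, 1676, 1679, 1680, 1681, 1682, 1688, 1689, 1690]
    (by decide +kernel)
    ⟨unsat_of_ex slf0_ok c400020,
      unsat_of_ex slf0_ok c400021,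
      unsat_of_ex slf0_ok c400022,
      unsat_of_ex slf0_ok c400023,
      unsat_of_ex slf0_ok c400024,
      unsat_of_ex slf0_ok c400025,
      unsat_of_ex slf0_ok c400026,
      unsat_of_ex slf0_ok c400027,
      unsat_of_ex slf0_ok c400028,
      unsat_of_ex slf0_ok c400029, trivial⟩

theorem b400000 : Unsat [] [0, 131, 1799] :=
  branch slf0_ok 11 [517, 645, 773, 1157, 1285, 1413, 1541, 1669, 1925, 2053, 2181, 2309, 2437, 2565, 2821, 2949, 3077, 3205, 3333]
    (by decide +kernel)
    ⟨unsat_of_ex slf0_ok c400001,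
      unsat_of_ex slf0_ok c400002,
      unsat_of_ex slf0_ok c400003,
      unsat_of_ex slf0_ok c400004,
      unsat_of_ex slf0_ok c400005,
      unsat_of_ex slf0_ok c400006,
      unsat_of_ex slf0_ok c400007,
      b400008,
      b400019,
      unsat_of_ex slf0_ok c400030,
      unsat_of_ex slf0_ok c400031,
      unsat_of_ex slf0_ok c400032,
      unsat_of_ex slf0_ok c400033,
      unsat_of_ex slf0_ok c400034,
      unsat_of_ex slf0_ok c400035,
      unsat_of_ex slf0_ok c400036,
      unsat_of_ex slf0_ok c400037,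
      unsat_of_ex slf0_ok c400038,
      unsat_of_ex slf0_ok c400039, trivial⟩

theorem b500000 : Unsat [] [0, 131, 1800] :=
  branch slf0_ok 11 [517, 645, 773, 1157, 1285, 1413, 1541, 1669, 1925, 2053, 2181, 2309, 2437, 2565, 2821, 2949, 3077, 3205, 3333]
    (by decide +kernel)
    ⟨unsat_of_ex slf0_ok c500001,
      unsat_of_ex slf0_ok c500002,
      unsat_of_ex slf0_ok c500003,
      unsat_of_ex slf0_ok c500004,
      unsat_of_ex slf0_ok c500005,
      unsat_of_ex slf0_ok c500006,
      unsat_of_ex slf0_ok c500007,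
      unsat_of_ex slf0_ok c500008,
      unsat_of_ex slf0_ok c500009,
      unsat_of_ex slf0_ok c500010,
      unsat_of_ex slf0_ok c500011,
      unsat_of_ex slf0_ok c500012,
      unsat_of_ex slf0_ok c500013,
      unsat_of_ex slf0_ok c500014,
      unsat_of_ex slf0_ok c500015,
      unsat_of_ex slf0_ok c500016,
      unsat_of_ex slf0_ok c500017,
      unsat_of_ex slf0_ok c500018,
      unsat_of_ex slf0_ok c500019, trivial⟩

theorem b600012 : Unsat [] [0, 131, 1801, 1938] :=
  branch slf0_ok 52 [3330, 3332, 3333, 3334, 3335, 3336, 3338, 3339, 3340, 3341, 3345, 3347, 3348, 3349, 3350]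
    (by decide +kernel)
    ⟨unsat_of_ex slf0_ok c600013,
      unsat_of_ex slf0_ok c600014,
      unsat_of_ex slf0_ok c600015,
      unsat_of_ex slf0_ok c600016,
      unsat_of_ex slf0_ok c600017,
      unsat_of_ex slf0_ok c600018,
      unsat_of_ex slf0_ok c600019,
      unsat_of_ex slf0_ok c600020,
      unsat_of_ex slf0_ok c600021,
      unsat_of_ex slf0_ok c600022,
      unsat_of_ex slf0_ok c600023,
      unsat_of_ex slf0_ok c600024,
      unsat_of_ex slf0_ok c600025,
      unsat_of_ex slf0_ok c600026,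
      unsat_of_ex slf0_ok c600027, trivial⟩

theorem b600028 : Unsat [] [0, 131, 1801, 1939] :=
  branch slf0_ok 4 [257, 269, 270, 271, 272, 276, 277, 278, 279, 280, 281, 282]
    (by decide +kernel)
    ⟨unsat_of_ex slf0_ok c600029,
      unsat_of_ex slf0_ok c600030,
      unsat_of_ex slf0_ok c600031,
      unsat_of_ex slf0_ok c600032,
      unsat_of_ex slf0_ok c600033,
      unsat_of_ex slf0_ok c600034,
      unsat_of_ex slf0_ok c600035,
      unsat_of_ex slf0_ok c600036,
      unsat_of_ex slf0_ok c600037,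
      unsat_of_ex slf0_ok c600038,
      unsat_of_ex slf0_ok c600039,
      unsat_of_ex slf0_ok c600040, trivial⟩

theorem b600000 : Unsat [] [0, 131, 1801] :=
  branch slf0_ok 30 [1921, 1922, 1924, 1925, 1926, 1927, 1931, 1932, 1933, 1934, 1935, 1938, 1939, 1940, 1941, 1942, 1946]
    (by decide +kernel)
    ⟨unsat_of_ex slf0_ok c600001,
      unsat_of_ex slf0_ok c600002,
      unsat_of_ex slf0_ok c600003,
      unsat_of_ex slf0_ok c600004,
      unsat_of_ex slf0_ok c600005,
      unsat_of_ex slf0_ok c600006,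
      unsat_of_ex slf0_ok c600007,
      unsat_of_ex slf0_ok c600008,
      unsat_of_ex slf0_ok c600009,
      unsat_of_ex slf0_ok c600010,
      unsat_of_ex slf0_ok c600011,
      b600012,
      b600028,
      unsat_of_ex slf0_ok c600041,
      unsat_of_ex slf0_ok c600042,
      unsat_of_ex slf0_ok c600043,
      unsat_of_ex slf0_ok c600044, trivial⟩

theorem b700014 : Unsat [] [0, 131, 1802, 1687] :=
  branch slf0_ok 52 [3330, 3332, 3333, 3334, 3335, 3336, 3339, 3340, 3341, 3342, 3349, 3350]
    (by decide +kernel)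
    ⟨unsat_of_ex slf0_ok c700015,
      unsat_of_ex slf0_ok c700016,
      unsat_of_ex slf0_ok c700017,
      unsat_of_ex slf0_ok c700018,
      unsat_of_ex slf0_ok c700019,
      unsat_of_ex slf0_ok c700020,
      unsat_of_ex slf0_ok c700021,
      unsat_of_ex slf0_ok c700022,
      unsat_of_ex slf0_ok c700023,
      unsat_of_ex slf0_ok c700024,
      unsat_of_ex slf0_ok c700025,
      unsat_of_ex slf0_ok c700026, trivial⟩

theorem b700027 : Unsat [] [0, 131, 1802, 1688] :=
  branch slf0_ok 52 [3330, 3332, 3333, 3334, 3335, 3336, 3337, 3340, 3341, 3342, 3343]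
    (by decide +kernel)
    ⟨unsat_of_ex slf0_ok c700028,
      unsat_of_ex slf0_ok c700029,
      unsat_of_ex slf0_ok c700030,
      unsat_of_ex slf0_ok c700031,
      unsat_of_ex slf0_ok c700032,
      unsat_of_ex slf0_ok c700033,
      unsat_of_ex slf0_ok c700034,
      unsat_of_ex slf0_ok c700035,
      unsat_of_ex slf0_ok c700036,
      unsat_of_ex slf0_ok c700037,
      unsat_of_ex slf0_ok c700038, trivial⟩

theorem b700000 : Unsat [] [0, 131, 1802] :=
  branch slf0_ok 26 [1665, 1666, 1668, 1669, 1670, 1671, 1672, 1676, 1679, 1683, 1684, 1685, 1686, 1687, 1688, 1689, 1690]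
    (by decide +kernel)
    ⟨unsat_of_ex slf0_ok c700001,
      unsat_of_ex slf0_ok c700002,
      unsat_of_ex slf0_ok c700003,
      unsat_of_ex slf0_ok c700004,
      unsat_of_ex slf0_ok c700005,
      unsat_of_ex slf0_ok c700006,
      unsat_of_ex slf0_ok c700007,
      unsat_of_ex slf0_ok c700008,
      unsat_of_ex slf0_ok c700009,
      unsat_of_ex slf0_ok c700010,
      unsat_of_ex slf0_ok c700011,
      unsat_of_ex slf0_ok c700012,
      unsat_of_ex slf0_ok c700013,
      b700014,
      b700027,
      unsat_of_ex slf0_ok c700039,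
      unsat_of_ex slf0_ok c700040, trivial⟩

theorem b800004 : Unsat [] [0, 131, 1803, 1669] :=
  branch slf0_ok 30 [1924, 1926, 1927, 1928, 1929, 1933, 1934, 1935, 1939, 1940, 1944, 1945, 1946]
    (by decide +kernel)
    ⟨unsat_of_ex slf0_ok c800005,
      unsat_of_ex slf0_ok c800006,
      unsat_of_ex slf0_ok c800007,
      unsat_of_ex slf0_ok c800008,
      unsat_of_ex slf0_ok c800009,
      unsat_of_ex slf0_ok c800010,
      unsat_of_ex slf0_ok c800011,
      unsat_of_ex slf0_ok c800012,
      unsat_of_ex slf0_ok c800013,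
      unsat_of_ex slf0_ok c800014,
      unsat_of_ex slf0_ok c800015,
      unsat_of_ex slf0_ok c800016,
      unsat_of_ex slf0_ok c800017, trivial⟩

theorem b800018 : Unsat [] [0, 131, 1803, 1670] :=
  branch slf0_ok 30 [1922, 1924, 1925, 1927, 1928, 1929, 1933, 1934, 1938, 1939, 1944, 1945]
    (by decide +kernel)
    ⟨unsat_of_ex slf0_ok c800019,
      unsat_of_ex slf0_ok c800020,
      unsat_of_ex slf0_ok c800021,
      unsat_of_ex slf0_ok c800022,
      unsat_of_ex slf0_ok c800023,
      unsat_of_ex slf0_ok c800024,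
      unsat_of_ex slf0_ok c800025,
      unsat_of_ex slf0_ok c800026,
      unsat_of_ex slf0_ok c800027,
      unsat_of_ex slf0_ok c800028,
      unsat_of_ex slf0_ok c800029,
      unsat_of_ex slf0_ok c800030, trivial⟩

theorem b800039 : Unsat [] [0, 131, 1803, 1687] :=
  branch slf0_ok 52 [3330, 3332, 3333, 3334, 3335, 3336, 3340, 3341, 3342, 3349, 3350]
    (by decide +kernel)
    ⟨unsat_of_ex slf0_ok c800040,
      unsat_of_ex slf0_ok c800041,
      unsat_of_ex slf0_ok c800042,
      unsat_of_ex slf0_ok c800043,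
      unsat_of_ex slf0_ok c800044,
      unsat_of_ex slf0_ok c800045,
      unsat_of_ex slf0_ok c800046,
      unsat_of_ex slf0_ok c800047,
      unsat_of_ex slf0_ok c800048,
      unsat_of_ex slf0_ok c800049,
      unsat_of_ex slf0_ok c800050, trivial⟩

theorem b800000 : Unsat [] [0, 131, 1803] :=
  branch slf0_ok 26 [1665, 1666, 1668, 1669, 1670, 1671, 1672, 1673, 1682, 1683, 1684, 1685, 1686, 1687, 1688, 1689, 1690]
    (by decide +kernel)
    ⟨unsat_of_ex slf0_ok c800001,
      unsat_of_ex slf0_ok c800002,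
      unsat_of_ex slf0_ok c800003,
      b800004,
      b800018,
      unsat_of_ex slf0_ok c800031,
      unsat_of_ex slf0_ok c800032,
      unsat_of_ex slf0_ok c800033,
      unsat_of_ex slf0_ok c800034,
      unsat_of_ex slf0_ok c800035,
      unsat_of_ex slf0_ok c800036,
      unsat_of_ex slf0_ok c800037,
      unsat_of_ex slf0_ok c800038,
      b800039,
      unsat_of_ex slf0_ok c800051,
      unsat_of_ex slf0_ok c800052,
      unsat_of_ex slf0_ok c800053, trivial⟩

theorem b900010 : Unsat [] [0, 131, 1804, 1934] :=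
  branch slf0_ok 6 [388, 392, 393, 394, 395, 397, 399, 400, 401, 402, 403, 404, 405, 406, 407]
    (by decide +kernel)
    ⟨unsat_of_ex slf0_ok c900011,
      unsat_of_ex slf0_ok c900012,
      unsat_of_ex slf0_ok c900013,
      unsat_of_ex slf0_ok c900014,
      unsat_of_ex slf0_ok c900015,
      unsat_of_ex slf0_ok c900016,
      unsat_of_ex slf0_ok c900017,
      unsat_of_ex slf0_ok c900018,
      unsat_of_ex slf0_ok c900019,
      unsat_of_ex slf0_ok c900020,
      unsat_of_ex slf0_ok c900021,
      unsat_of_ex slf0_ok c900022,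
      unsat_of_ex slf0_ok c900023,
      unsat_of_ex slf0_ok c900024,
      unsat_of_ex slf0_ok c900025, trivial⟩

theorem b900026 : Unsat [] [0, 131, 1804, 1935] :=
  branch slf0_ok 26 [1665, 1666, 1668, 1669, 1670, 1671, 1684, 1685, 1686, 1687, 1688, 1689, 1690]
    (by decide +kernel)
    ⟨unsat_of_ex slf0_ok c900027,
      unsat_of_ex slf0_ok c900028,
      unsat_of_ex slf0_ok c900029,
      unsat_of_ex slf0_ok c900030,
      unsat_of_ex slf0_ok c900031,
      unsat_of_ex slf0_ok c900032,
      unsat_of_ex slf0_ok c900033,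
      unsat_of_ex slf0_ok c900034,
      unsat_of_ex slf0_ok c900035,
      unsat_of_ex slf0_ok c900036,
      unsat_of_ex slf0_ok c900037,
      unsat_of_ex slf0_ok c900038,
      unsat_of_ex slf0_ok c900039, trivial⟩

theorem b900000 : Unsat [] [0, 131, 1804] :=
  branch slf0_ok 30 [1921, 1922, 1924, 1925, 1926, 1927, 1928, 1929, 1930, 1934, 1935, 1938, 1939, 1943, 1944, 1945, 1946]
    (by decide +kernel)
    ⟨unsat_of_ex slf0_ok c900001,
      unsat_of_ex slf0_ok c900002,
      unsat_of_ex slf0_ok c900003,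
      unsat_of_ex slf0_ok c900004,
      unsat_of_ex slf0_ok c900005,
      unsat_of_ex slf0_ok c900006,
      unsat_of_ex slf0_ok c900007,
      unsat_of_ex slf0_ok c900008,
      unsat_of_ex slf0_ok c900009,
      b900010,
      b900026,
      unsat_of_ex slf0_ok c900040,
      unsat_of_ex slf0_ok c900041,
      unsat_of_ex slf0_ok c900042,
      unsat_of_ex slf0_ok c900043,
      unsat_of_ex slf0_ok c900044,
      unsat_of_ex slf0_ok c900045, trivial⟩

/-- Class 0: the step `3`, steps [] being excluded. -/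
theorem cls0 : Unsat [] [0, 128 + 3] :=
  root slf0_ok (by norm_num) [4, 5, 6, 7, 8, 9, 10, 11, 12] (by decide) (by decide +kernel)
    ⟨b100000,
      b200000,
      b300000,
      b400000,
      b500000,
      b600000,
      b700000,
      b800000,
      b900000, trivial⟩

theorem b10100016 : Unsat [3] [0, 132, 1793, 3330] :=
  branch slf1_ok 7 [387, 643, 771, 1155, 1923, 2051, 2179, 2307, 2435, 2563, 2819]
    (by decide +kernel)
    ⟨unsat_of_ex slf1_ok c10100017,
      unsat_of_ex slf1_ok c10100018,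
      unsat_of_ex slf1_ok c10100019,
      unsat_of_ex slf1_ok c10100020,
      unsat_of_ex slf1_ok c10100021,
      unsat_of_ex slf1_ok c10100022,
      unsat_of_ex slf1_ok c10100023,
      unsat_of_ex slf1_ok c10100024,
      unsat_of_ex slf1_ok c10100025,
      unsat_of_ex slf1_ok c10100026,
      unsat_of_ex slf1_ok c10100027, trivial⟩

theorem b10100000 : Unsat [3] [0, 132, 1793] :=
  branch slf1_ok 5 [386, 514, 642, 770, 1154, 1282, 1538, 2050, 2306, 2434, 2562, 2818, 2946, 3074, 3202, 3330]
    (by decide +kernel)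
    ⟨unsat_of_ex slf1_ok c10100001,
      unsat_of_ex slf1_ok c10100002,
      unsat_of_ex slf1_ok c10100003,
      unsat_of_ex slf1_ok c10100004,
      unsat_of_ex slf1_ok c10100005,
      unsat_of_ex slf1_ok c10100006,
      unsat_of_ex slf1_ok c10100007,
      unsat_of_ex slf1_ok c10100008,
      unsat_of_ex slf1_ok c10100009,
      unsat_of_ex slf1_ok c10100010,
      unsat_of_ex slf1_ok c10100011,
      unsat_of_ex slf1_ok c10100012,
      unsat_of_ex slf1_ok c10100013,
      unsat_of_ex slf1_ok c10100014,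
      unsat_of_ex slf1_ok c10100015,
      b10100016, trivial⟩

theorem b10200018 : Unsat [3] [0, 132, 1797, 3330] :=
  branch slf1_ok 26 [1671, 1673, 1674, 1675, 1676, 1682, 1683, 1684, 1688, 1689, 1690]
    (by decide +kernel)
    ⟨unsat_of_ex slf1_ok c10200019,
      unsat_of_ex slf1_ok c10200020,
      unsat_of_ex slf1_ok c10200021,
      unsat_of_ex slf1_ok c10200022,
      unsat_of_ex slf1_ok c10200023,
      unsat_of_ex slf1_ok c10200024,
      unsat_of_ex slf1_ok c10200025,
      unsat_of_ex slf1_ok c10200026,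
      unsat_of_ex slf1_ok c10200027,
      unsat_of_ex slf1_ok c10200028,
      unsat_of_ex slf1_ok c10200029, trivial⟩

theorem b10200000 : Unsat [3] [0, 132, 1797] :=
  branch slf1_ok 5 [258, 386, 514, 642, 770, 1026, 1154, 1282, 1410, 1538, 2178, 2306, 2434, 2818, 2946, 3074, 3202, 3330]
    (by decide +kernel)
    ⟨unsat_of_ex slf1_ok c10200001,
      unsat_of_ex slf1_ok c10200002,
      unsat_of_ex slf1_ok c10200003,
      unsat_of_ex slf1_ok c10200004,
      unsat_of_ex slf1_ok c10200005,
      unsat_of_ex slf1_ok c10200006,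
      unsat_of_ex slf1_ok c10200007,
      unsat_of_ex slf1_ok c10200008,
      unsat_of_ex slf1_ok c10200009,
      unsat_of_ex slf1_ok c10200010,
      unsat_of_ex slf1_ok c10200011,
      unsat_of_ex slf1_ok c10200012,
      unsat_of_ex slf1_ok c10200013,
      unsat_of_ex slf1_ok c10200014,
      unsat_of_ex slf1_ok c10200015,
      unsat_of_ex slf1_ok c10200016,
      unsat_of_ex slf1_ok c10200017,
      b10200018, trivial⟩

theorem b10300000 : Unsat [3] [0, 132, 1798] :=
  branch slf1_ok 52 [3330, 3333, 3338, 3339, 3340, 3341, 3342, 3343, 3344, 3345, 3346, 3347, 3348, 3349, 3353]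
    (by decide +kernel)
    ⟨unsat_of_ex slf1_ok c10300001,
      unsat_of_ex slf1_ok c10300002,
      unsat_of_ex slf1_ok c10300003,
      unsat_of_ex slf1_ok c10300004,
      unsat_of_ex slf1_ok c10300005,
      unsat_of_ex slf1_ok c10300006,
      unsat_of_ex slf1_ok c10300007,
      unsat_of_ex slf1_ok c10300008,
      unsat_of_ex slf1_ok c10300009,
      unsat_of_ex slf1_ok c10300010,
      unsat_of_ex slf1_ok c10300011,
      unsat_of_ex slf1_ok c10300012,
      unsat_of_ex slf1_ok c10300013,
      unsat_of_ex slf1_ok c10300014,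
      unsat_of_ex slf1_ok c10300015, trivial⟩

theorem b10400000 : Unsat [3] [0, 132, 1799] :=
  branch slf1_ok 11 [389, 645, 773, 1157, 1285, 1413, 1541, 1669, 1925, 2053, 2181, 2309, 2437, 2565, 2821, 2949, 3077, 3333]
    (by decide +kernel)
    ⟨unsat_of_ex slf1_ok c10400001,
      unsat_of_ex slf1_ok c10400002,
      unsat_of_ex slf1_ok c10400003,
      unsat_of_ex slf1_ok c10400004,
      unsat_of_ex slf1_ok c10400005,
      unsat_of_ex slf1_ok c10400006,
      unsat_of_ex slf1_ok c10400007,
      unsat_of_ex slf1_ok c10400008,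
      unsat_of_ex slf1_ok c10400009,
      unsat_of_ex slf1_ok c10400010,
      unsat_of_ex slf1_ok c10400011,
      unsat_of_ex slf1_ok c10400012,
      unsat_of_ex slf1_ok c10400013,
      unsat_of_ex slf1_ok c10400014,
      unsat_of_ex slf1_ok c10400015,
      unsat_of_ex slf1_ok c10400016,
      unsat_of_ex slf1_ok c10400017,
      unsat_of_ex slf1_ok c10400018, trivial⟩

theorem b10500000 : Unsat [3] [0, 132, 1800] :=
  branch slf1_ok 26 [1665, 1666, 1667, 1670, 1674, 1676, 1679, 1680, 1681, 1685, 1686, 1687, 1688, 1689, 1690]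
    (by decide +kernel)
    ⟨unsat_of_ex slf1_ok c10500001,
      unsat_of_ex slf1_ok c10500002,
      unsat_of_ex slf1_ok c10500003,
      unsat_of_ex slf1_ok c10500004,
      unsat_of_ex slf1_ok c10500005,
      unsat_of_ex slf1_ok c10500006,
      unsat_of_ex slf1_ok c10500007,
      unsat_of_ex slf1_ok c10500008,
      unsat_of_ex slf1_ok c10500009,
      unsat_of_ex slf1_ok c10500010,
      unsat_of_ex slf1_ok c10500011,
      unsat_of_ex slf1_ok c10500012,
      unsat_of_ex slf1_ok c10500013,
      unsat_of_ex slf1_ok c10500014,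
      unsat_of_ex slf1_ok c10500015, trivial⟩

theorem b10600000 : Unsat [3] [0, 132, 1801] :=
  branch slf1_ok 52 [3330, 3333, 3334, 3335, 3336, 3338, 3339, 3340, 3344, 3345, 3346, 3347, 3348, 3349, 3353]
    (by decide +kernel)
    ⟨unsat_of_ex slf1_ok c10600001,
      unsat_of_ex slf1_ok c10600002,
      unsat_of_ex slf1_ok c10600003,
      unsat_of_ex slf1_ok c10600004,
      unsat_of_ex slf1_ok c10600005,
      unsat_of_ex slf1_ok c10600006,
      unsat_of_ex slf1_ok c10600007,
      unsat_of_ex slf1_ok c10600008,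
      unsat_of_ex slf1_ok c10600009,
      unsat_of_ex slf1_ok c10600010,
      unsat_of_ex slf1_ok c10600011,
      unsat_of_ex slf1_ok c10600012,
      unsat_of_ex slf1_ok c10600013,
      unsat_of_ex slf1_ok c10600014,
      unsat_of_ex slf1_ok c10600015, trivial⟩

theorem b10700000 : Unsat [3] [0, 132, 1802] :=
  branch slf1_ok 26 [1665, 1666, 1667, 1669, 1670, 1672, 1676, 1679, 1683, 1684, 1685, 1686, 1687, 1688, 1689, 1690]
    (by decide +kernel)
    ⟨unsat_of_ex slf1_ok c10700001,
      unsat_of_ex slf1_ok c10700002,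
      unsat_of_ex slf1_ok c10700003,
      unsat_of_ex slf1_ok c10700004,
      unsat_of_ex slf1_ok c10700005,
      unsat_of_ex slf1_ok c10700006,
      unsat_of_ex slf1_ok c10700007,
      unsat_of_ex slf1_ok c10700008,
      unsat_of_ex slf1_ok c10700009,
      unsat_of_ex slf1_ok c10700010,
      unsat_of_ex slf1_ok c10700011,
      unsat_of_ex slf1_ok c10700012,
      unsat_of_ex slf1_ok c10700013,
      unsat_of_ex slf1_ok c10700014,
      unsat_of_ex slf1_ok c10700015,
      unsat_of_ex slf1_ok c10700016, trivial⟩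

theorem b10800000 : Unsat [3] [0, 132, 1803] :=
  branch slf1_ok 4 [258, 262, 266, 268, 269, 270, 271, 272, 273, 274, 275, 276, 280, 281, 282]
    (by decide +kernel)
    ⟨unsat_of_ex slf1_ok c10800001,
      unsat_of_ex slf1_ok c10800002,
      unsat_of_ex slf1_ok c10800003,
      unsat_of_ex slf1_ok c10800004,
      unsat_of_ex slf1_ok c10800005,
      unsat_of_ex slf1_ok c10800006,
      unsat_of_ex slf1_ok c10800007,
      unsat_of_ex slf1_ok c10800008,
      unsat_of_ex slf1_ok c10800009,
      unsat_of_ex slf1_ok c10800010,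
      unsat_of_ex slf1_ok c10800011,
      unsat_of_ex slf1_ok c10800012,
      unsat_of_ex slf1_ok c10800013,
      unsat_of_ex slf1_ok c10800014,
      unsat_of_ex slf1_ok c10800015, trivial⟩

theorem b10900000 : Unsat [3] [0, 132, 1804] :=
  branch slf1_ok 52 [3330, 3333, 3334, 3335, 3336, 3337, 3338, 3339, 3341, 3342, 3343, 3344, 3345, 3346, 3353]
    (by decide +kernel)
    ⟨unsat_of_ex slf1_ok c10900001,
      unsat_of_ex slf1_ok c10900002,
      unsat_of_ex slf1_ok c10900003,
      unsat_of_ex slf1_ok c10900004,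
      unsat_of_ex slf1_ok c10900005,
      unsat_of_ex slf1_ok c10900006,
      unsat_of_ex slf1_ok c10900007,
      unsat_of_ex slf1_ok c10900008,
      unsat_of_ex slf1_ok c10900009,
      unsat_of_ex slf1_ok c10900010,
      unsat_of_ex slf1_ok c10900011,
      unsat_of_ex slf1_ok c10900012,
      unsat_of_ex slf1_ok c10900013,
      unsat_of_ex slf1_ok c10900014,
      unsat_of_ex slf1_ok c10900015, trivial⟩

/-- Class 1: the step `4`, steps [3] being excluded. -/
theorem cls1 : Unsat [3] [0, 128 + 4] :=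
  root slf1_ok (by norm_num) [1, 5, 6, 7, 8, 9, 10, 11, 12] (by decide) (by decide +kernel)
    ⟨b10100000,
      b10200000,
      b10300000,
      b10400000,
      b10500000,
      b10600000,
      b10700000,
      b10800000,
      b10900000, trivial⟩

theorem b20100000 : Unsat [3, 4] [0, 130, 1795] :=
  branch slf2_ok 3 [769, 1025, 1153, 1281, 1409, 1537, 1665, 2177, 2305, 2433, 2817]
    (by decide +kernel)
    ⟨unsat_of_ex slf2_ok c20100001,
      unsat_of_ex slf2_ok c20100002,
      unsat_of_ex slf2_ok c20100003,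
      unsat_of_ex slf2_ok c20100004,
      unsat_of_ex slf2_ok c20100005,
      unsat_of_ex slf2_ok c20100006,
      unsat_of_ex slf2_ok c20100007,
      unsat_of_ex slf2_ok c20100008,
      unsat_of_ex slf2_ok c20100009,
      unsat_of_ex slf2_ok c20100010,
      unsat_of_ex slf2_ok c20100011, trivial⟩

theorem b20200000 : Unsat [3, 4] [0, 130, 1796] :=
  branch slf2_ok 7 [771, 1155, 1539, 2051, 2435, 2563, 2819, 2947]
    (by decide +kernel)
    ⟨unsat_of_ex slf2_ok c20200001,
      unsat_of_ex slf2_ok c20200002,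
      unsat_of_ex slf2_ok c20200003,
      unsat_of_ex slf2_ok c20200004,
      unsat_of_ex slf2_ok c20200005,
      unsat_of_ex slf2_ok c20200006,
      unsat_of_ex slf2_ok c20200007,
      unsat_of_ex slf2_ok c20200008, trivial⟩

theorem b20300000 : Unsat [3, 4] [0, 130, 1797] :=
  branch slf2_ok 52 [3334, 3338, 3339, 3340, 3341, 3342, 3343, 3344, 3345, 3346, 3347, 3348, 3349, 3350]
    (by decide +kernel)
    ⟨unsat_of_ex slf2_ok c20300001,
      unsat_of_ex slf2_ok c20300002,
      unsat_of_ex slf2_ok c20300003,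
      unsat_of_ex slf2_ok c20300004,
      unsat_of_ex slf2_ok c20300005,
      unsat_of_ex slf2_ok c20300006,
      unsat_of_ex slf2_ok c20300007,
      unsat_of_ex slf2_ok c20300008,
      unsat_of_ex slf2_ok c20300009,
      unsat_of_ex slf2_ok c20300010,
      unsat_of_ex slf2_ok c20300011,
      unsat_of_ex slf2_ok c20300012,
      unsat_of_ex slf2_ok c20300013,
      unsat_of_ex slf2_ok c20300014, trivial⟩

theorem b20400000 : Unsat [3, 4] [0, 130, 1798] :=
  branch slf2_ok 52 [3333, 3335, 3336, 3340, 3341, 3342, 3343, 3344, 3345, 3346, 3347, 3348, 3349, 3350]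
    (by decide +kernel)
    ⟨unsat_of_ex slf2_ok c20400001,
      unsat_of_ex slf2_ok c20400002,
      unsat_of_ex slf2_ok c20400003,
      unsat_of_ex slf2_ok c20400004,
      unsat_of_ex slf2_ok c20400005,
      unsat_of_ex slf2_ok c20400006,
      unsat_of_ex slf2_ok c20400007,
      unsat_of_ex slf2_ok c20400008,
      unsat_of_ex slf2_ok c20400009,
      unsat_of_ex slf2_ok c20400010,
      unsat_of_ex slf2_ok c20400011,
      unsat_of_ex slf2_ok c20400012,
      unsat_of_ex slf2_ok c20400013,
      unsat_of_ex slf2_ok c20400014, trivial⟩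

theorem b20500000 : Unsat [3, 4] [0, 130, 1799] :=
  branch slf2_ok 9 [516, 644, 772, 1156, 1284, 1412, 1540, 2052, 2180, 2308, 2436, 2820, 2948, 3076, 3204]
    (by decide +kernel)
    ⟨unsat_of_ex slf2_ok c20500001,
      unsat_of_ex slf2_ok c20500002,
      unsat_of_ex slf2_ok c20500003,
      unsat_of_ex slf2_ok c20500004,
      unsat_of_ex slf2_ok c20500005,
      unsat_of_ex slf2_ok c20500006,
      unsat_of_ex slf2_ok c20500007,
      unsat_of_ex slf2_ok c20500008,
      unsat_of_ex slf2_ok c20500009,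
      unsat_of_ex slf2_ok c20500010,
      unsat_of_ex slf2_ok c20500011,
      unsat_of_ex slf2_ok c20500012,
      unsat_of_ex slf2_ok c20500013,
      unsat_of_ex slf2_ok c20500014,
      unsat_of_ex slf2_ok c20500015, trivial⟩

theorem b20600000 : Unsat [3, 4] [0, 130, 1800] :=
  branch slf2_ok 52 [3333, 3334, 3335, 3337, 3338, 3339, 3340, 3344, 3345, 3346, 3347, 3348, 3349, 3350]
    (by decide +kernel)
    ⟨unsat_of_ex slf2_ok c20600001,
      unsat_of_ex slf2_ok c20600002,
      unsat_of_ex slf2_ok c20600003,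
      unsat_of_ex slf2_ok c20600004,
      unsat_of_ex slf2_ok c20600005,
      unsat_of_ex slf2_ok c20600006,
      unsat_of_ex slf2_ok c20600007,
      unsat_of_ex slf2_ok c20600008,
      unsat_of_ex slf2_ok c20600009,
      unsat_of_ex slf2_ok c20600010,
      unsat_of_ex slf2_ok c20600011,
      unsat_of_ex slf2_ok c20600012,
      unsat_of_ex slf2_ok c20600013,
      unsat_of_ex slf2_ok c20600014, trivial⟩

theorem b20700000 : Unsat [3, 4] [0, 130, 1801] :=
  branch slf2_ok 52 [3333, 3334, 3335, 3336, 3338, 3339, 3340, 3341, 3342, 3346, 3347, 3348, 3349, 3350]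
    (by decide +kernel)
    ⟨unsat_of_ex slf2_ok c20700001,
      unsat_of_ex slf2_ok c20700002,
      unsat_of_ex slf2_ok c20700003,
      unsat_of_ex slf2_ok c20700004,
      unsat_of_ex slf2_ok c20700005,
      unsat_of_ex slf2_ok c20700006,
      unsat_of_ex slf2_ok c20700007,
      unsat_of_ex slf2_ok c20700008,
      unsat_of_ex slf2_ok c20700009,
      unsat_of_ex slf2_ok c20700010,
      unsat_of_ex slf2_ok c20700011,
      unsat_of_ex slf2_ok c20700012,
      unsat_of_ex slf2_ok c20700013,
      unsat_of_ex slf2_ok c20700014, trivial⟩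

theorem b20800000 : Unsat [3, 4] [0, 130, 1802] :=
  branch slf2_ok 52 [3333, 3334, 3335, 3336, 3337, 3339, 3340, 3341, 3342, 3343, 3344, 3348, 3349, 3350]
    (by decide +kernel)
    ⟨unsat_of_ex slf2_ok c20800001,
      unsat_of_ex slf2_ok c20800002,
      unsat_of_ex slf2_ok c20800003,
      unsat_of_ex slf2_ok c20800004,
      unsat_of_ex slf2_ok c20800005,
      unsat_of_ex slf2_ok c20800006,
      unsat_of_ex slf2_ok c20800007,
      unsat_of_ex slf2_ok c20800008,
      unsat_of_ex slf2_ok c20800009,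
      unsat_of_ex slf2_ok c20800010,
      unsat_of_ex slf2_ok c20800011,
      unsat_of_ex slf2_ok c20800012,
      unsat_of_ex slf2_ok c20800013,
      unsat_of_ex slf2_ok c20800014, trivial⟩

theorem b20900000 : Unsat [3, 4] [0, 130, 1803] :=
  branch slf2_ok 52 [3333, 3334, 3335, 3336, 3337, 3338, 3340, 3341, 3342, 3343, 3344, 3345, 3346, 3350]
    (by decide +kernel)
    ⟨unsat_of_ex slf2_ok c20900001,
      unsat_of_ex slf2_ok c20900002,
      unsat_of_ex slf2_ok c20900003,
      unsat_of_ex slf2_ok c20900004,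
      unsat_of_ex slf2_ok c20900005,
      unsat_of_ex slf2_ok c20900006,
      unsat_of_ex slf2_ok c20900007,
      unsat_of_ex slf2_ok c20900008,
      unsat_of_ex slf2_ok c20900009,
      unsat_of_ex slf2_ok c20900010,
      unsat_of_ex slf2_ok c20900011,
      unsat_of_ex slf2_ok c20900012,
      unsat_of_ex slf2_ok c20900013,
      unsat_of_ex slf2_ok c20900014, trivial⟩

theorem b21000000 : Unsat [3, 4] [0, 130, 1804] :=
  branch slf2_ok 4 [263, 264, 265, 266, 267, 269, 270, 271, 272, 273, 274, 275, 276, 277, 278]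
    (by decide +kernel)
    ⟨unsat_of_ex slf2_ok c21000001,
      unsat_of_ex slf2_ok c21000002,
      unsat_of_ex slf2_ok c21000003,
      unsat_of_ex slf2_ok c21000004,
      unsat_of_ex slf2_ok c21000005,
      unsat_of_ex slf2_ok c21000006,
      unsat_of_ex slf2_ok c21000007,
      unsat_of_ex slf2_ok c21000008,
      unsat_of_ex slf2_ok c21000009,
      unsat_of_ex slf2_ok c21000010,
      unsat_of_ex slf2_ok c21000011,
      unsat_of_ex slf2_ok c21000012,
      unsat_of_ex slf2_ok c21000013,
      unsat_of_ex slf2_ok c21000014,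
      unsat_of_ex slf2_ok c21000015, trivial⟩

/-- Class 2: the step `2`, steps [3, 4] being excluded. -/
theorem cls2 : Unsat [3, 4] [0, 128 + 2] :=
  root slf2_ok (by norm_num) [3, 4, 5, 6, 7, 8, 9, 10, 11, 12] (by decide) (by decide +kernel)
    ⟨b20100000,
      b20200000,
      b20300000,
      b20400000,
      b20500000,
      b20600000,
      b20700000,
      b20800000,
      b20900000,
      b21000000, trivial⟩

/-- Class 3: the step `5`, steps [3, 4, 2] being excluded. -/
theorem cls3 : Unsat [3, 4, 2] [0, 128 + 5] :=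
  root slf3_ok (by norm_num) [1, 6, 7, 8, 9, 10, 11, 12, 15] (by decide) (by decide +kernel)
    ⟨unsat_of_ex slf3_ok c30000000,
      unsat_of_ex slf3_ok c30000001,
      unsat_of_ex slf3_ok c30000002,
      unsat_of_ex slf3_ok c30000003,
      unsat_of_ex slf3_ok c30000004,
      unsat_of_ex slf3_ok c30000005,
      unsat_of_ex slf3_ok c30000006,
      unsat_of_ex slf3_ok c30000007,
      unsat_of_ex slf3_ok c30000008, trivial⟩

/-- Class 4: the step `6`, steps [3, 4, 2, 5] being excluded. -/
theorem cls4 : Unsat [3, 4, 2, 5] [0, 128 + 6] :=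
  root slf4_ok (by norm_num) [1, 2, 7, 8, 9, 10, 11, 12, 15] (by decide) (by decide +kernel)
    ⟨unsat_of_ex slf4_ok c40000000,
      unsat_of_ex slf4_ok c40000001,
      unsat_of_ex slf4_ok c40000002,
      unsat_of_ex slf4_ok c40000003,
      unsat_of_ex slf4_ok c40000004,
      unsat_of_ex slf4_ok c40000005,
      unsat_of_ex slf4_ok c40000006,
      unsat_of_ex slf4_ok c40000007,
      unsat_of_ex slf4_ok c40000008, trivial⟩

/-- Class 5: the step `7`, steps [3, 4, 2, 5, 6] being excluded. -/
theorem cls5 : Unsat [3, 4, 2, 5, 6] [0, 128 + 7] :=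
  root slf5_ok (by norm_num) [1, 2, 8, 9, 10, 11, 12, 15, 16] (by decide) (by decide +kernel)
    ⟨unsat_of_ex slf5_ok c50000000,
      unsat_of_ex slf5_ok c50000001,
      unsat_of_ex slf5_ok c50000002,
      unsat_of_ex slf5_ok c50000003,
      unsat_of_ex slf5_ok c50000004,
      unsat_of_ex slf5_ok c50000005,
      unsat_of_ex slf5_ok c50000006,
      unsat_of_ex slf5_ok c50000007,
      unsat_of_ex slf5_ok c50000008, trivial⟩

/-- Class 6: the step `8`, steps [3, 4, 2, 5, 6, 7] being excluded. -/
theorem cls6 : Unsat [3, 4, 2, 5, 6, 7] [0, 128 + 8] :=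
  root slf6_ok (by norm_num) [1, 2, 3, 9, 10, 11, 12, 15, 16] (by decide) (by decide +kernel)
    ⟨unsat_of_ex slf6_ok c60000000,
      unsat_of_ex slf6_ok c60000001,
      unsat_of_ex slf6_ok c60000002,
      unsat_of_ex slf6_ok c60000003,
      unsat_of_ex slf6_ok c60000004,
      unsat_of_ex slf6_ok c60000005,
      unsat_of_ex slf6_ok c60000006,
      unsat_of_ex slf6_ok c60000007,
      unsat_of_ex slf6_ok c60000008, trivial⟩

/-- Class 7: the step `9`, steps [3, 4, 2, 5, 6, 7, 8] being excluded. -/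
theorem cls7 : Unsat [3, 4, 2, 5, 6, 7, 8] [0, 128 + 9] :=
  root slf7_ok (by norm_num) [1, 2, 3, 10, 11, 12, 15, 16, 17] (by decide) (by decide +kernel)
    ⟨unsat_of_ex slf7_ok c70000000,
      unsat_of_ex slf7_ok c70000001,
      unsat_of_ex slf7_ok c70000002,
      unsat_of_ex slf7_ok c70000003,
      unsat_of_ex slf7_ok c70000004,
      unsat_of_ex slf7_ok c70000005,
      unsat_of_ex slf7_ok c70000006,
      unsat_of_ex slf7_ok c70000007,
      unsat_of_ex slf7_ok c70000008, trivial⟩

/-- Class 8: the step `10`, steps [3, 4, 2, 5, 6, 7, 8, 9] being excluded. -/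
theorem cls8 : Unsat [3, 4, 2, 5, 6, 7, 8, 9] [0, 128 + 10] :=
  root slf8_ok (by norm_num) [1, 2, 3, 4, 11, 12, 15, 16, 17] (by decide) (by decide +kernel)
    ⟨unsat_of_ex slf8_ok c80000000,
      unsat_of_ex slf8_ok c80000001,
      unsat_of_ex slf8_ok c80000002,
      unsat_of_ex slf8_ok c80000003,
      unsat_of_ex slf8_ok c80000004,
      unsat_of_ex slf8_ok c80000005,
      unsat_of_ex slf8_ok c80000006,
      unsat_of_ex slf8_ok c80000007,
      unsat_of_ex slf8_ok c80000008, trivial⟩

/-- Class 9: the step `11`, steps [3, 4, 2, 5, 6, 7, 8, 9, 10] being excluded. -/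
theorem cls9 : Unsat [3, 4, 2, 5, 6, 7, 8, 9, 10] [0, 128 + 11] :=
  root slf9_ok (by norm_num) [1, 2, 3, 4, 12, 15, 16, 17, 18] (by decide) (by decide +kernel)
    ⟨unsat_of_ex slf9_ok c90000000,
      unsat_of_ex slf9_ok c90000001,
      unsat_of_ex slf9_ok c90000002,
      unsat_of_ex slf9_ok c90000003,
      unsat_of_ex slf9_ok c90000004,
      unsat_of_ex slf9_ok c90000005,
      unsat_of_ex slf9_ok c90000006,
      unsat_of_ex slf9_ok c90000007,
      unsat_of_ex slf9_ok c90000008, trivial⟩

/-- Class 10: the step `12`, steps [3, 4, 2, 5, 6, 7, 8, 9, 10, 11] being excluded. -/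
theorem cls10 : Unsat [3, 4, 2, 5, 6, 7, 8, 9, 10, 11] [0, 128 + 12] :=
  root slf10_ok (by norm_num) [1, 2, 3, 4, 5, 15, 16, 17, 18] (by decide) (by decide +kernel)
    ⟨unsat_of_ex slf10_ok c100000000,
      unsat_of_ex slf10_ok c100000001,
      unsat_of_ex slf10_ok c100000002,
      unsat_of_ex slf10_ok c100000003,
      unsat_of_ex slf10_ok c100000004,
      unsat_of_ex slf10_ok c100000005,
      unsat_of_ex slf10_ok c100000006,
      unsat_of_ex slf10_ok c100000007,
      unsat_of_ex slf10_ok c100000008, trivial⟩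

/-- Class 11: the step `13`, steps [3, 4, 2, 5, 6, 7, 8, 9, 10, 11, 12] being excluded. -/
theorem cls11 : Unsat [3, 4, 2, 5, 6, 7, 8, 9, 10, 11, 12] [0, 128 + 13] :=
  root slf11_ok (by norm_num) [1, 2, 3, 4, 5, 15, 16, 17, 18, 19] (by decide) (by decide +kernel)
    ⟨unsat_of_ex slf11_ok c110000000,
      unsat_of_ex slf11_ok c110000001,
      unsat_of_ex slf11_ok c110000002,
      unsat_of_ex slf11_ok c110000003,
      unsat_of_ex slf11_ok c110000004,
      unsat_of_ex slf11_ok c110000005,
      unsat_of_ex slf11_ok c110000006,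
      unsat_of_ex slf11_ok c110000007,
      unsat_of_ex slf11_ok c110000008,
      unsat_of_ex slf11_ok c110000009, trivial⟩

/-- There is no good permutation of `ZMod 27`. -/
theorem no_good (G : ℕ → ℕ → Prop) (hG : Gd G) : False := by
  have n0 : ∀ v ∈ ([3] : List ℕ), ¬ Stp G v := by
    intro v hv
    rw [List.mem_singleton] at hv
    subst hv
    exact no_step (by norm_num) (by norm_num) cls0 hG (by simp)
  have n1 : ∀ v ∈ ([3, 4] : List ℕ), ¬ Stp G v := by
    intro v hv
    by_cases hv0 : v ∈ ([3] : List ℕ)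
    · exact n0 v hv0
    · have hv1 : v = 4 := by
        simp only [List.mem_cons, List.not_mem_nil, or_false] at hv hv0
        tauto
      subst hv1
      exact no_step (by norm_num) (by norm_num) cls1 hG n0
  have n2 : ∀ v ∈ ([3, 4, 2] : List ℕ), ¬ Stp G v := by
    intro v hv
    by_cases hv0 : v ∈ ([3, 4] : List ℕ)
    · exact n1 v hv0
    · have hv1 : v = 2 := by
        simp only [List.mem_cons, List.not_mem_nil, or_false] at hv hv0
        tauto
      subst hv1
      exact no_step (by norm_num) (by norm_num) cls2 hG n1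
  have n3 : ∀ v ∈ ([3, 4, 2, 5] : List ℕ), ¬ Stp G v := by
    intro v hv
    by_cases hv0 : v ∈ ([3, 4, 2] : List ℕ)
    · exact n2 v hv0
    · have hv1 : v = 5 := by
        simp only [List.mem_cons, List.not_mem_nil, or_false] at hv hv0
        tauto
      subst hv1
      exact no_step (by norm_num) (by norm_num) cls3 hG n2
  have n4 : ∀ v ∈ ([3, 4, 2, 5, 6] : List ℕ), ¬ Stp G v := by
    intro v hv
    by_cases hv0 : v ∈ ([3, 4, 2, 5] : List ℕ)
    · exact n3 v hv0
    · have hv1 : v = 6 := by
        simp only [List.mem_cons, List.not_mem_nil, or_false] at hv hv0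
        tauto
      subst hv1
      exact no_step (by norm_num) (by norm_num) cls4 hG n3
  have n5 : ∀ v ∈ ([3, 4, 2, 5, 6, 7] : List ℕ), ¬ Stp G v := by
    intro v hv
    by_cases hv0 : v ∈ ([3, 4, 2, 5, 6] : List ℕ)
    · exact n4 v hv0
    · have hv1 : v = 7 := by
        simp only [List.mem_cons, List.not_mem_nil, or_false] at hv hv0
        tauto
      subst hv1
      exact no_step (by norm_num) (by norm_num) cls5 hG n4
  have n6 : ∀ v ∈ ([3, 4, 2, 5, 6, 7, 8] : List ℕ), ¬ Stp G v := by
    intro v hv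
    by_cases hv0 : v ∈ ([3, 4, 2, 5, 6, 7] : List ℕ)
    · exact n5 v hv0
    · have hv1 : v = 8 := by
        simp only [List.mem_cons, List.not_mem_nil, or_false] at hv hv0
        tauto
      subst hv1
      exact no_step (by norm_num) (by norm_num) cls6 hG n5
  have n7 : ∀ v ∈ ([3, 4, 2, 5, 6, 7, 8, 9] : List ℕ), ¬ Stp G v := by
    intro v hv
    by_cases hv0 : v ∈ ([3, 4, 2, 5, 6, 7, 8] : List ℕ)
    · exact n6 v hv0
    · have hv1 : v = 9 := by
        simp only [List.mem_cons, List.not_mem_nil, or_false] at hv hv0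
        tauto
      subst hv1
      exact no_step (by norm_num) (by norm_num) cls7 hG n6
  have n8 : ∀ v ∈ ([3, 4, 2, 5, 6, 7, 8, 9, 10] : List ℕ), ¬ Stp G v := by
    intro v hv
    by_cases hv0 : v ∈ ([3, 4, 2, 5, 6, 7, 8, 9] : List ℕ)
    · exact n7 v hv0
    · have hv1 : v = 10 := by
        simp only [List.mem_cons, List.not_mem_nil, or_false] at hv hv0
        tauto
      subst hv1
      exact no_step (by norm_num) (by norm_num) cls8 hG n7
  have n9 : ∀ v ∈ ([3, 4, 2, 5, 6, 7, 8, 9, 10, 11] : List ℕ), ¬ Stp G v := by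
    intro v hv
    by_cases hv0 : v ∈ ([3, 4, 2, 5, 6, 7, 8, 9, 10] : List ℕ)
    · exact n8 v hv0
    · have hv1 : v = 11 := by
        simp only [List.mem_cons, List.not_mem_nil, or_false] at hv hv0
        tauto
      subst hv1
      exact no_step (by norm_num) (by norm_num) cls9 hG n8
  have n10 : ∀ v ∈ ([3, 4, 2, 5, 6, 7, 8, 9, 10, 11, 12] : List ℕ), ¬ Stp G v := by
    intro v hv
    by_cases hv0 : v ∈ ([3, 4, 2, 5, 6, 7, 8, 9, 10, 11] : List ℕ)
    · exact n9 v hv0
    · have hv1 : v = 12 := by
        simp only [List.mem_cons, List.not_mem_nil, or_false] at hv hv0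
        tauto
      subst hv1
      exact no_step (by norm_num) (by norm_num) cls10 hG n9
  have n11 : ∀ v ∈ ([3, 4, 2, 5, 6, 7, 8, 9, 10, 11, 12, 13] : List ℕ), ¬ Stp G v := by
    intro v hv
    by_cases hv0 : v ∈ ([3, 4, 2, 5, 6, 7, 8, 9, 10, 11, 12] : List ℕ)
    · exact n10 v hv0
    · have hv1 : v = 13 := by
        simp only [List.mem_cons, List.not_mem_nil, or_false] at hv hv0
        tauto
      subst hv1
      exact no_step (by norm_num) (by norm_num) cls11 hG n10
  obtain ⟨w, h1, h2, h3⟩ := exists_step hG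
  refine n11 w ?_ h3
  simp only [List.mem_cons, List.not_mem_nil, or_false]
  omega

end Pool.Agent.Lib.MP_147277_coZ
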