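import Pool.Agent.Lib.MP_147277_coZ.Spec

/-! # Soundness of the checker for the exhaustive search on `ZMod 27` -/

set_option autoImplicit false
set_option maxRecDepth 100000

namespace Pool.Agent.Lib.MP_147277_coZ

theorem tb_shr (N i j : ℕ) : Nat.testBit (Nat.shiftRight N i) j = Nat.testBit N (i + j) :=
  Nat.testBit_shiftRight N

theorem tb_lor (N M j : ℕ) : Nat.testBit (Nat.lor N M) j = (Nat.testBit N j || Nat.testBit M j) :=
  Nat.testBit_or N M j

theorem tb_land (N M j : ℕ) :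
    Nat.testBit (Nat.land N M) j = (Nat.testBit N j && Nat.testBit M j) :=
  Nat.testBit_and N M j

theorem tb_xor (N M j : ℕ) :
    Nat.testBit (Nat.xor N M) j = (Nat.testBit N j).xor (Nat.testBit M j) :=
  Nat.testBit_xor N M j

theorem tb_one (p j : ℕ) : Nat.testBit (Nat.shiftLeft 1 p) j = decide (p = j) := by
  have h : Nat.shiftLeft 1 p = 2 ^ p := by
    change 1 <<< p = 2 ^ p
    rw [Nat.shiftLeft_eq, one_mul]
  rw [h, Nat.testBit_two_pow]

/-- The mark of the cells of a board removed by placing a cell. -/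
def kl (PS N1 N2 N3 p h q : ℕ) : ℕ :=
  Nat.lor (Nat.lor (Nat.shiftRight N1 (Nat.mul 2 q)) (Nat.shiftRight N2 p))
    (Nat.lor (Nat.shiftRight N3 h) (Nat.shiftRight PS q))

theorem neg3 {u v : ℕ} (h : (u + v) % 27 = 0) (hu : (u + 1) % 27 < 3) : (v + 1) % 27 < 3 := by
  omega

theorem half3 {X x : ℕ} (hX : X < 27) (hx : x < 27) (h : (2 * (x + (27 - X) % 27) + 1) % 27 < 3) :
    (X + X + 55 - 2 * x) % 27 < 3 := by
  have h1 : (2 * (x + (27 - X) % 27) + (X + X + 54 - 2 * x)) % 27 = 0 := by omega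
  have h2 := neg3 h1 h
  have e : X + X + 54 - 2 * x + 1 = X + X + 55 - 2 * x := by omega
  rwa [e] at h2

theorem thir3 {a X x : ℕ} (ha : a < 27) (hX : X < 27) (hx : x < 27)
    (h : (2 * (((13 * X) % 27 + x) + (13 * a) % 27) + 1) % 27 < 3) :
    (a + X + 55 - 2 * x) % 27 < 3 := by
  have h1 : (2 * (((13 * X) % 27 + x) + (13 * a) % 27) + (a + X + 54 - 2 * x)) % 27 = 0 := by
    omega
  have h2 := neg3 h1 h
  have e : a + X + 54 - 2 * x + 1 = a + X + 55 - 2 * x := by omega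
  rwa [e] at h2

theorem sp_cases {G : ℕ → ℕ → Prop} (hG : Gd G) {fb : List ℕ} (hN : ∀ w ∈ fb, ¬ Stp G w)
    {X Y x y : ℕ} (hXY : G X Y) (hxy : G x y)
    (h : sp fb (x + (27 - X) % 27) (y + (27 - Y) % 27) = true) : x = X ∧ y = Y := by
  obtain ⟨hX, hY⟩ := hG.lt X Y hXY
  obtain ⟨hx, hy⟩ := hG.lt x y hxy
  simp only [sp, Bool.or_eq_true, Bool.and_eq_true, beq_iff_eq, decide_eq_true_eq,
    List.any_eq_true] at h
  rcases h with (((h | h) | h) | h) | h
  · have : x = X := by omega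
    subst this
    exact ⟨rfl, hG.fn x y Y hxy hXY⟩
  · have : y = Y := by omega
    subst this
    exact ⟨hG.inj x X y hxy hXY, rfl⟩
  · have := hG.good X X x Y Y y hXY hXY hxy (by omega) (by omega)
    have h2 : x = X := this.2.symm
    subst h2
    exact ⟨rfl, hG.fn x y Y hxy hXY⟩
  · have := hG.good X x X Y y Y hXY hxy hXY (half3 hX hx h.1) (half3 hY hy h.2)
    have h2 : x = X := this.2
    subst h2
    exact ⟨rfl, hG.fn x y Y hxy hXY⟩
  · exfalso
    obtain ⟨w, hw, hh⟩ := h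
    refine hN w hw ⟨x, y, X, Y, hxy, hXY, ?_⟩
    rcases hh with ⟨h1, h2⟩ | ⟨h1, h2⟩
    · left
      refine ⟨?_, ?_⟩
      · rcases h1 with h1 | h1 <;> omega
      · rcases h2 with h2 | h2
        · left; omega
        · right; omega
    · right
      refine ⟨?_, ?_⟩
      · rcases h1 with h1 | h1
        · left; omega
        · right; omega
      · rcases h2 with h2 | h2 <;> omega

theorem kl_false {G : ℕ → ℕ → Prop} (hG : Gd G) {fb : List ℕ} {PS : ℕ} (hS : PSok fb PS)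
    (hN : ∀ w ∈ fb, ¬ Stp G w) {A N1 N2 N3 : ℕ} (hI : Inv G A N1 N2 N3)
    {X Y x y : ℕ} (hXY : G X Y) (hxy : G x y)
    (h : Nat.testBit (kl PS N1 N2 N3 (128 * X + Y) (128 * ((13 * X) % 27) + (13 * Y) % 27)
      (128 * ((27 - X) % 27) + (27 - Y) % 27)) (128 * x + y) = true) : x = X ∧ y = Y := by
  obtain ⟨hX, hY⟩ := hG.lt X Y hXY
  obtain ⟨hx, hy⟩ := hG.lt x y hxy
  rw [kl, tb_lor, tb_lor, tb_lor, tb_shr, tb_shr, tb_shr, tb_shr, Bool.or_eq_true,
    Bool.or_eq_true, Bool.or_eq_true] at h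
  rcases h with (h | h) | (h | h)
  · have e : Nat.mul 2 (128 * ((27 - X) % 27) + (27 - Y) % 27) + (128 * x + y) =
        128 * (x + 2 * ((27 - X) % 27)) + (y + 2 * ((27 - Y) % 27)) := by
      change 2 * (128 * ((27 - X) % 27) + (27 - Y) % 27) + (128 * x + y) = _
      omega
    rw [e] at h
    obtain ⟨a, α, hP, h1, h2⟩ := hI.n1 _ (by omega) _ (by omega) h
    obtain ⟨ha, hα⟩ := hG.lt a α hP
    have := hG.good a X x α Y y hP hXY hxy (by omega) (by omega)
    have h2 : x = X := this.2.symm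
    subst h2
    exact ⟨rfl, hG.fn x y Y hxy hXY⟩
  · have e : (128 * X + Y) + (128 * x + y) = 128 * (X + x) + (Y + y) := by omega
    rw [e] at h
    obtain ⟨a, α, hP, h1, h2⟩ := hI.n2 _ (by omega) _ (by omega) h
    obtain ⟨ha, hα⟩ := hG.lt a α hP
    have := hG.good X a x Y α y hXY hP hxy (by omega) (by omega)
    have h2 : x = X := (this.1.trans this.2).symm
    subst h2
    exact ⟨rfl, hG.fn x y Y hxy hXY⟩
  · have e : (128 * ((13 * X) % 27) + (13 * Y) % 27) + (128 * x + y) =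
        128 * ((13 * X) % 27 + x) + ((13 * Y) % 27 + y) := by omega
    rw [e] at h
    obtain ⟨a, α, hP, h1, h2⟩ := hI.n3 _ (by omega) _ (by omega) h
    obtain ⟨ha, hα⟩ := hG.lt a α hP
    have := hG.good a x X α y Y hP hxy hXY (thir3 ha hX hx h1) (thir3 hα hY hy h2)
    have h2 : x = X := this.2
    subst h2
    exact ⟨rfl, hG.fn x y Y hxy hXY⟩
  · have e : (128 * ((27 - X) % 27) + (27 - Y) % 27) + (128 * x + y) =
        128 * (x + (27 - X) % 27) + (y + (27 - Y) % 27) := by omega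
    rw [e] at h
    exact sp_cases hG hN hXY hxy (hS _ (by omega) _ (by omega) h)

theorem plc_sound {G : ℕ → ℕ → Prop} (hG : Gd G) {fb : List ℕ} {PS : ℕ} (hS : PSok fb PS)
    (hN : ∀ w ∈ fb, ¬ Stp G w) {A N1 N2 N3 : ℕ} (hI : Inv G A N1 N2 N3)
    {X Y : ℕ} (hXY : G X Y) {α : Type} (k : Nat → Nat → Nat → Nat → α) :
    ∃ A' N1' N2' N3', Inv G A' N1' N2' N3' ∧
      plc PS k (128 * X + Y) A N1 N2 N3 = k A' N1' N2' N3' := by
  obtain ⟨hX, hY⟩ := hG.lt X Y hXY
  obtain ⟨hv1, hv2⟩ := brdT_spec X hX Y hY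
  refine ⟨Nat.lor (Nat.shiftLeft 1 (128 * X + Y)) (Nat.xor A (Nat.land A
      (kl PS N1 N2 N3 (128 * X + Y) (128 * ((13 * X) % 27) + (13 * Y) % 27)
        (128 * ((27 - X) % 27) + (27 - Y) % 27)))),
    Nat.lor N1 (Nat.shiftRight brdB (128 * X + Y)),
    Nat.lor N2 (Nat.shiftRight brdB (Nat.mul 2 (128 * ((27 - X) % 27) + (27 - Y) % 27))),
    Nat.lor N3 (Nat.shiftRight brdH (128 * ((13 * X) % 27) + (13 * Y) % 27)), ?_, ?_⟩
  · refine ⟨?_, ?_, ?_, ?_⟩
    · intro x y hxy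
      obtain ⟨hx, hy⟩ := hG.lt x y hxy
      rw [tb_lor, tb_one, tb_xor, tb_land, hI.a x y hxy]
      by_cases hk : Nat.testBit (kl PS N1 N2 N3 (128 * X + Y)
          (128 * ((13 * X) % 27) + (13 * Y) % 27)
          (128 * ((27 - X) % 27) + (27 - Y) % 27)) (128 * x + y) = true
      · obtain ⟨h1, h2⟩ := kl_false hG hS hN hI hXY hxy hk
        subst h1; subst h2
        simp
      · rw [Bool.not_eq_true] at hk
        rw [hk]
        simp
    · intro r hr c hc h
      rw [tb_lor, tb_shr, Bool.or_eq_true] at h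
      rcases h with h | h
      · exact hI.n1 r hr c hc h
      · have e : (128 * X + Y) + (128 * r + c) = 128 * (r + X) + (c + Y) := by omega
        rw [e] at h
        obtain ⟨h1, h2⟩ := brdB_spec _ (by omega) _ (by omega) h
        exact ⟨X, Y, hXY, h1, h2⟩
    · intro r hr c hc h
      rw [tb_lor, tb_shr, Bool.or_eq_true] at h
      rcases h with h | h
      · exact hI.n2 r hr c hc h
      · have e : Nat.mul 2 (128 * ((27 - X) % 27) + (27 - Y) % 27) + (128 * r + c) =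
            128 * (r + 2 * ((27 - X) % 27)) + (c + 2 * ((27 - Y) % 27)) := by
          change 2 * (128 * ((27 - X) % 27) + (27 - Y) % 27) + (128 * r + c) = _
          omega
        rw [e] at h
        obtain ⟨h1, h2⟩ := brdB_spec _ (by omega) _ (by omega) h
        exact ⟨X, Y, hXY, h1, h2⟩
    · intro r hr c hc h
      rw [tb_lor, tb_shr, Bool.or_eq_true] at h
      rcases h with h | h
      · exact hI.n3 r hr c hc h
      · have e : (128 * ((13 * X) % 27) + (13 * Y) % 27) + (128 * r + c) =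
            128 * (r + (13 * X) % 27) + (c + (13 * Y) % 27) := by omega
        rw [e] at h
        obtain ⟨h1, h2⟩ := brdH_spec _ (by omega) _ (by omega) h
        exact ⟨X, Y, hXY, h1, h2⟩
  · unfold plc kl
    simp only [hv1, hv2]

theorem loop_zero (ih : Nat → Nat → Nat → Nat → Nat → Nat) (PS A N1 N2 N3 m s : ℕ) :
    loop ih PS A N1 N2 N3 0 m s = 0 := rfl

theorem loop_succ (ih : Nat → Nat → Nat → Nat → Nat → Nat) (PS A N1 N2 N3 f k s : ℕ) :
    loop ih PS A N1 N2 N3 (f + 1) (k + 1) s =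
      (fun r => Nat.rec (motive := fun _ => Nat) 0
        (fun _ _ => loop ih PS A N1 N2 N3 f (Nat.xor (k + 1) (Nat.land (k + 1)
          (Nat.shiftLeft 1 (Nat.land s 4095)))) r) r)
      (plc PS (fun A' N1' N2' N3' => ih A' N1' N2' N3' (Nat.shiftRight s 12))
        (Nat.land s 4095) A N1 N2 N3) := rfl

theorem bit_remove {m p i : ℕ} (h : Nat.testBit m i = true) (hp : p ≠ i) :
    Nat.testBit (Nat.xor m (Nat.land m (Nat.shiftLeft 1 p))) i = true := by
  rw [tb_xor, tb_land, tb_one, h]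
  simp [hp]

theorem loop_sound {G : ℕ → ℕ → Prop} (hG : Gd G) {fb : List ℕ} {PS : ℕ} (hS : PSok fb PS)
    (hN : ∀ w ∈ fb, ¬ Stp G w) {ih : Nat → Nat → Nat → Nat → Nat → Nat}
    (hih : ∀ A N1 N2 N3 s, Inv G A N1 N2 N3 → ih A N1 N2 N3 s = 0)
    {A N1 N2 N3 : ℕ} (hI : Inv G A N1 N2 N3) :
    ∀ f m s, (∃ x y, G x y ∧ Nat.testBit m (128 * x + y) = true) →
      loop ih PS A N1 N2 N3 f m s = 0 := by
  intro f
  induction f with
  | zero => intro m s _; rfl
  | succ f IH =>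
    intro m s hm
    cases m with
    | zero =>
      obtain ⟨x, y, _, h⟩ := hm
      simp at h
    | succ k =>
      rw [loop_succ]
      obtain ⟨x, y, hxy, h⟩ := hm
      by_cases hp : Nat.land s 4095 = 128 * x + y
      · obtain ⟨A', N1', N2', N3', hI', he⟩ := plc_sound hG hS hN hI hxy
          (fun A' N1' N2' N3' => ih A' N1' N2' N3' (Nat.shiftRight s 12))
        rw [hp, he, hih _ _ _ _ _ hI']
        rfl
      · have := IH (Nat.xor (k + 1) (Nat.land (k + 1)
            (Nat.shiftLeft 1 (Nat.land s 4095))))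
            (plc PS (fun A' N1' N2' N3' => ih A' N1' N2' N3' (Nat.shiftRight s 12))
              (Nat.land s 4095) A N1 N2 N3) ⟨x, y, hxy, bit_remove h hp⟩
        revert this
        generalize plc PS (fun A' N1' N2' N3' => ih A' N1' N2' N3' (Nat.shiftRight s 12))
              (Nat.land s 4095) A N1 N2 N3 = r
        intro this
        cases r with
        | zero => rfl
        | succ r => exact this

theorem line_inv {G : ℕ → ℕ → Prop} (hG : Gd G) {A N1 N2 N3 : ℕ} (hI : Inv G A N1 N2 N3)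
    (c : ℕ) : ∃ x y, G x y ∧ Nat.testBit (Nat.land A (line (Nat.land c 63))) (128 * x + y) = true := by
  have hc : Nat.land c 63 < 64 := by
    have : Nat.land c 63 ≤ 63 := Nat.and_le_right
    omega
  rcases line_spec _ hc with h | h
  · obtain ⟨y, hy⟩ := hG.row ((Nat.land c 63 / 2) % 27) (Nat.mod_lt _ (by norm_num))
    refine ⟨_, y, hy, ?_⟩
    rw [tb_land, hI.a _ _ hy, h y (hG.lt _ _ hy).2]
    rfl
  · obtain ⟨x, hx⟩ := hG.col ((Nat.land c 63 / 2) % 27) (Nat.mod_lt _ (by norm_num))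
    refine ⟨x, _, hx, ?_⟩
    rw [tb_land, hI.a _ _ hx, h x (hG.lt _ _ hx).1]
    rfl

theorem go_sound {G : ℕ → ℕ → Prop} (hG : Gd G) {fb : List ℕ} {PS : ℕ} (hS : PSok fb PS)
    (hN : ∀ w ∈ fb, ¬ Stp G w) (d : ℕ) :
    ∀ A N1 N2 N3 s, Inv G A N1 N2 N3 → go PS d A N1 N2 N3 s = 0 := by
  induction d with
  | zero => intro A N1 N2 N3 s _; rfl
  | succ d IH =>
    intro A N1 N2 N3 s hI
    change loop (go PS d) PS A N1 N2 N3 28 (Nat.land A (line (Nat.land s 63)))
      (Nat.shiftRight s 6) = 0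
    exact loop_sound hG hS hN IH hI 28 _ _ (line_inv hG hI s)

theorem chkT_sound {G : ℕ → ℕ → Prop} (hG : Gd G) {fb : List ℕ} {PS : ℕ} (hS : PSok fb PS)
    (hN : ∀ w ∈ fb, ¬ Stp G w) (t : TT) :
    ∀ A N1 N2 N3 m, Inv G A N1 N2 N3 → (∃ x y, G x y ∧ Nat.testBit m (128 * x + y) = true) →
      chkT PS t A N1 N2 N3 m = false := by
  induction t with
  | strm x =>
    intro A N1 N2 N3 m hI _
    rw [chkT, go_sound hG hS hN 24 _ _ _ _ _ hI]
    rfl
  | node c t IH =>
    intro A N1 N2 N3 m hI _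
    rw [chkT]
    exact IH _ _ _ _ _ hI (line_inv hG hI c)
  | nil =>
    intro A N1 N2 N3 m hI hm
    obtain ⟨x, y, _, h⟩ := hm
    rw [chkT]
    cases m with
    | zero => simp at h
    | succ k => rfl
  | cons p t r IH1 IH2 =>
    intro A N1 N2 N3 m hI hm
    obtain ⟨x, y, hxy, h⟩ := hm
    rw [chkT, Bool.and_eq_false_iff]
    by_cases hp : p = 128 * x + y
    · left
      obtain ⟨A', N1', N2', N3', hI', he⟩ := plc_sound hG hS hN hI hxy
        (fun A' N1' N2' N3' => chkT PS t A' N1' N2' N3' A')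
      rw [hp, he]
      exact IH1 _ _ _ _ _ hI' ⟨x, y, hxy, hI'.a x y hxy⟩
    · right
      exact IH2 _ _ _ _ _ hI ⟨x, y, hxy, bit_remove h hp⟩

theorem inv_start {G : ℕ → ℕ → Prop} (hG : Gd G) : Inv G brdA 0 0 0 := by
  refine ⟨fun x y h => brdA_spec x (hG.lt x y h).1 y (hG.lt x y h).2, ?_, ?_, ?_⟩ <;>
  · intro r _ c _ h
    simp at h

/-- No good permutation avoiding the steps in `fb` contains all cells of `l`. -/
def Unsat (fb : List ℕ) (l : List ℕ) : Prop :=
  ∀ G : ℕ → ℕ → Prop, Gd G → (∀ w ∈ fb, ¬ Stp G w) → (∀ p ∈ l, G (p / 128) (p % 128)) → False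

theorem runK_sound {G : ℕ → ℕ → Prop} (hG : Gd G) {fb : List ℕ} {PS : ℕ} (hS : PSok fb PS)
    (hN : ∀ w ∈ fb, ¬ Stp G w) (k : Nat → Nat → Nat → Nat → Bool) (l : List ℕ) :
    ∀ A N1 N2 N3, Inv G A N1 N2 N3 → (∀ p ∈ l, G (p / 128) (p % 128)) →
      ∃ A' N1' N2' N3', Inv G A' N1' N2' N3' ∧ runK PS k l A N1 N2 N3 = k A' N1' N2' N3' := by
  induction l with
  | nil => intro A N1 N2 N3 hI _; exact ⟨A, N1, N2, N3, hI, rfl⟩
  | cons p l IH =>
    intro A N1 N2 N3 hI hl
    have hp : G (p / 128) (p % 128) := hl p (by simp)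
    obtain ⟨A', N1', N2', N3', hI', he⟩ := plc_sound hG hS hN hI hp
      (fun A' N1' N2' N3' => runK PS k l A' N1' N2' N3')
    rw [Nat.div_add_mod p 128] at he
    obtain ⟨A2, M1, M2, M3, hI2, he2⟩ := IH A' N1' N2' N3' hI'
      (fun q hq => hl q (List.mem_cons_of_mem _ hq))
    refine ⟨A2, M1, M2, M3, hI2, ?_⟩
    rw [runK, he, he2]

theorem unsat_of_ex {fb : List ℕ} {PS : ℕ} (hS : PSok fb PS) {l : List ℕ} (h : Ex PS l) :
    Unsat fb l := by
  intro G hG hN hl
  obtain ⟨t, ht⟩ := h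
  obtain ⟨A, N1, N2, N3, hI, he⟩ := runK_sound hG hS hN
    (fun A N1 N2 N3 => chkT PS t A N1 N2 N3 A) l brdA 0 0 0 (inv_start hG) hl
  rw [he] at ht
  obtain ⟨y, hy⟩ := hG.row 0 (by norm_num)
  have := chkT_sound hG hS hN t A N1 N2 N3 A hI ⟨0, y, hy, hI.a 0 y hy⟩
  simp only [this] at ht
  exact Bool.false_ne_true ht

theorem rem_sound {i : ℕ} (ps : List ℕ) :
    ∀ m, Nat.testBit m i = true → Nat.beq (rem ps m) 0 = true → i ∈ ps := by
  induction ps with
  | nil =>
    intro m h h0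
    have : m = 0 := Nat.eq_of_beq_eq_true h0
    subst this
    simp at h
  | cons p ps IH =>
    intro m h h0
    by_cases hp : p = i
    · simp [hp]
    · exact List.mem_cons_of_mem _ (IH _ (bit_remove h hp) h0)

theorem cov_sound {G : ℕ → ℕ → Prop} (hG : Gd G) {fb : List ℕ} {PS : ℕ} (hS : PSok fb PS)
    (hN : ∀ w ∈ fb, ¬ Stp G w) {l : List ℕ} (hl : ∀ p ∈ l, G (p / 128) (p % 128)) {c : ℕ}
    {ps : List ℕ} (h : cov PS l c ps = true) :
    ∃ p ∈ ps, G (p / 128) (p % 128) := by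
  obtain ⟨A, N1, N2, N3, hI, he⟩ := runK_sound hG hS hN
    (fun A _ _ _ => Nat.beq (rem ps (Nat.land A (line (Nat.land c 63)))) 0) l brdA 0 0 0
      (inv_start hG) hl
  rw [cov, he] at h
  obtain ⟨x, y, hxy, hb⟩ := line_inv hG hI c
  obtain ⟨hx, hy⟩ := hG.lt x y hxy
  refine ⟨128 * x + y, rem_sound ps _ hb h, ?_⟩
  have e1 : (128 * x + y) / 128 = x := by omega
  have e2 : (128 * x + y) % 128 = y := by omega
  rw [e1, e2]
  exact hxy

/-- All extensions of `l` by a cell of the list are impossible. -/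
def AllU (fb : List ℕ) (l : List ℕ) : List ℕ → Prop
  | [] => True
  | p :: ps => Unsat fb (l ++ [p]) ∧ AllU fb l ps

theorem AllU.get {fb l : List ℕ} {p : ℕ} : ∀ {ps : List ℕ}, AllU fb l ps → p ∈ ps →
    Unsat fb (l ++ [p])
  | [], _, h => by simp at h
  | q :: ps, H, h => by
    rcases List.mem_cons.1 h with h | h
    · subst h; exact H.1
    · exact AllU.get H.2 h

theorem branch {fb : List ℕ} {PS : ℕ} (hS : PSok fb PS) {l : List ℕ} (c : ℕ) (ps : List ℕ)
    (h : cov PS l c ps = true) (H : AllU fb l ps) : Unsat fb l := by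
  intro G hG hN hl
  obtain ⟨p, hp, hGp⟩ := cov_sound hG hS hN hl h
  refine H.get hp G hG hN ?_
  intro q hq
  rcases List.mem_append.1 hq with hq | hq
  · exact hl q hq
  · rw [List.mem_singleton] at hq
    subst hq
    exact hGp

end Pool.Agent.Lib.MP_147277_coZ
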