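import Mathlib.Data.ZMod.ValMinAbs
import Pool.Agent.Lib.MP_147277_coZ.Chk

/-! # Patterns used by the checker for the exhaustive search on `ZMod 27` -/

set_option autoImplicit false
set_option maxRecDepth 100000

namespace Pool.Agent.Lib.MP_147277_coZ

/-- The graph of a good permutation, with representatives in `[0, 27)`. -/
structure Gd (G : ℕ → ℕ → Prop) : Prop where
  lt : ∀ x y, G x y → x < 27 ∧ y < 27
  row : ∀ x, x < 27 → ∃ y, G x y
  col : ∀ y, y < 27 → ∃ x, G x y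
  fn : ∀ x y z, G x y → G x z → y = z
  inj : ∀ x y z, G x z → G y z → x = y
  good : ∀ a b c α β γ, G a α → G b β → G c γ → (a + c + 55 - 2 * b) % 27 < 3 →
    (α + γ + 55 - 2 * β) % 27 < 3 → a = b ∧ b = c

/-- `G` has two cells whose difference is `(± 1, ± w)` or `(± w, ± 1)`. -/
def Stp (G : ℕ → ℕ → Prop) (w : ℕ) : Prop :=
  ∃ x y X Y, G x y ∧ G X Y ∧
    ((((x + 27 - X) % 27 = 1 ∨ (x + 27 - X) % 27 = 26) ∧
      ((y + 27 - Y) % 27 = w ∨ (y + 27 - Y) % 27 = 27 - w)) ∨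
    (((x + 27 - X) % 27 = w ∨ (x + 27 - X) % 27 = 27 - w) ∧
      ((y + 27 - Y) % 27 = 1 ∨ (y + 27 - Y) % 27 = 26)))

/-- The pattern of the cells excluded by one placed cell. -/
def sp (fb : List ℕ) (r c : ℕ) : Bool :=
  (r % 27 == 0) || (c % 27 == 0) || (decide ((r + 1) % 27 < 3) && decide ((c + 1) % 27 < 3)) ||
    (decide ((2 * r + 1) % 27 < 3) && decide ((2 * c + 1) % 27 < 3)) ||
    fb.any (fun w => (((r % 27 == 1) || (r % 27 == 26)) && ((c % 27 == w) || (c % 27 == 27 - w))) ||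
      (((r % 27 == w) || (r % 27 == 27 - w)) && ((c % 27 == 1) || (c % 27 == 26))))

/-- `PS` is contained in the pattern of `fb`. -/
def PSok (fb : List ℕ) (PS : ℕ) : Prop :=
  ∀ r, r < 54 → ∀ c, c < 54 → Nat.testBit PS (128 * r + c) = true → sp fb r c = true

/-- The invariant of the search. -/
structure Inv (G : ℕ → ℕ → Prop) (A N1 N2 N3 : ℕ) : Prop where
  a : ∀ x y, G x y → A.testBit (128 * x + y) = true
  n1 : ∀ r, r < 81 → ∀ c, c < 81 → N1.testBit (128 * r + c) = true →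
    ∃ a α, G a α ∧ (r + a + 1) % 27 < 3 ∧ (c + α + 1) % 27 < 3
  n2 : ∀ r, r < 54 → ∀ c, c < 54 → N2.testBit (128 * r + c) = true →
    ∃ a α, G a α ∧ (r + 2 * ((27 - a) % 27) + 1) % 27 < 3 ∧
      (c + 2 * ((27 - α) % 27) + 1) % 27 < 3
  n3 : ∀ r, r < 54 → ∀ c, c < 54 → N3.testBit (128 * r + c) = true →
    ∃ a α, G a α ∧ (2 * (r + (13 * a) % 27) + 1) % 27 < 3 ∧
      (2 * (c + (13 * α) % 27) + 1) % 27 < 3

theorem brdB_spec : ∀ r, r < 108 → ∀ c, c < 108 → Nat.testBit brdB (128 * r + c) = true →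
    (r + 1) % 27 < 3 ∧ (c + 1) % 27 < 3 := by
  have h : ∀ r < 108, ∀ c < 108, Nat.testBit brdB (128 * r + c) = true →
    (r + 1) % 27 < 3 ∧ (c + 1) % 27 < 3 := by decide +kernel
  exact h

theorem brdH_spec : ∀ r, r < 81 → ∀ c, c < 81 → Nat.testBit brdH (128 * r + c) = true →
    (2 * r + 1) % 27 < 3 ∧ (2 * c + 1) % 27 < 3 := by
  have h : ∀ r < 81, ∀ c < 81, Nat.testBit brdH (128 * r + c) = true →
    (2 * r + 1) % 27 < 3 ∧ (2 * c + 1) % 27 < 3 := by decide +kernel
  exact h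

theorem brdA_spec : ∀ r, r < 27 → ∀ c, c < 27 → Nat.testBit brdA (128 * r + c) = true := by
  have h : ∀ r < 27, ∀ c < 27, Nat.testBit brdA (128 * r + c) = true := by decide +kernel
  exact h

theorem brdT_spec : ∀ x, x < 27 → ∀ y, y < 27 →
    Nat.land (Nat.land (Nat.shiftRight brdT (Nat.mul 24 (128 * x + y))) 16777215) 4095 =
      128 * ((13 * x) % 27) + (13 * y) % 27 ∧
    Nat.shiftRight (Nat.land (Nat.shiftRight brdT (Nat.mul 24 (128 * x + y))) 16777215) 12 =
      128 * ((27 - x) % 27) + (27 - y) % 27 := by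
  have h : ∀ x < 27, ∀ y < 27,
    Nat.land (Nat.land (Nat.shiftRight brdT (Nat.mul 24 (128 * x + y))) 16777215) 4095 =
      128 * ((13 * x) % 27) + (13 * y) % 27 ∧
    Nat.shiftRight (Nat.land (Nat.shiftRight brdT (Nat.mul 24 (128 * x + y))) 16777215) 12 =
      128 * ((27 - x) % 27) + (27 - y) % 27 := by decide +kernel
  exact h

theorem line_spec : ∀ c, c < 64 →
    (∀ y, y < 27 → Nat.testBit (line c) (128 * ((c / 2) % 27) + y) = true) ∨
    (∀ x, x < 27 → Nat.testBit (line c) (128 * x + (c / 2) % 27) = true) := by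
  have h : ∀ c < 64,
    (∀ y < 27, Nat.testBit (line c) (128 * ((c / 2) % 27) + y) = true) ∨
    (∀ x < 27, Nat.testBit (line c) (128 * x + (c / 2) % 27) = true) := by decide +kernel
  exact h

theorem slf0_ok : PSok [] slf0 := by
  have h : ∀ r < 54, ∀ c < 54, Nat.testBit slf0 (128 * r + c) = true →
    sp [] r c = true := by
    decide +kernel
  exact h

theorem slf1_ok : PSok [3] slf1 := by
  have h : ∀ r < 54, ∀ c < 54, Nat.testBit slf1 (128 * r + c) = true →
    sp [3] r c = true := by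
    decide +kernel
  exact h

theorem slf2_ok : PSok [3, 4] slf2 := by
  have h : ∀ r < 54, ∀ c < 54, Nat.testBit slf2 (128 * r + c) = true →
    sp [3, 4] r c = true := by
    decide +kernel
  exact h

theorem slf3_ok : PSok [3, 4, 2] slf3 := by
  have h : ∀ r < 54, ∀ c < 54, Nat.testBit slf3 (128 * r + c) = true →
    sp [3, 4, 2] r c = true := by
    decide +kernel
  exact h

theorem slf4_ok : PSok [3, 4, 2, 5] slf4 := by
  have h : ∀ r < 54, ∀ c < 54, Nat.testBit slf4 (128 * r + c) = true →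
    sp [3, 4, 2, 5] r c = true := by
    decide +kernel
  exact h

theorem slf5_ok : PSok [3, 4, 2, 5, 6] slf5 := by
  have h : ∀ r < 54, ∀ c < 54, Nat.testBit slf5 (128 * r + c) = true →
    sp [3, 4, 2, 5, 6] r c = true := by
    decide +kernel
  exact h

theorem slf6_ok : PSok [3, 4, 2, 5, 6, 7] slf6 := by
  have h : ∀ r < 54, ∀ c < 54, Nat.testBit slf6 (128 * r + c) = true →
    sp [3, 4, 2, 5, 6, 7] r c = true := by
    decide +kernel
  exact h

theorem slf7_ok : PSok [3, 4, 2, 5, 6, 7, 8] slf7 := by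
  have h : ∀ r < 54, ∀ c < 54, Nat.testBit slf7 (128 * r + c) = true →
    sp [3, 4, 2, 5, 6, 7, 8] r c = true := by
    decide +kernel
  exact h

theorem slf8_ok : PSok [3, 4, 2, 5, 6, 7, 8, 9] slf8 := by
  have h : ∀ r < 54, ∀ c < 54, Nat.testBit slf8 (128 * r + c) = true →
    sp [3, 4, 2, 5, 6, 7, 8, 9] r c = true := by
    decide +kernel
  exact h

theorem slf9_ok : PSok [3, 4, 2, 5, 6, 7, 8, 9, 10] slf9 := by
  have h : ∀ r < 54, ∀ c < 54, Nat.testBit slf9 (128 * r + c) = true →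
    sp [3, 4, 2, 5, 6, 7, 8, 9, 10] r c = true := by
    decide +kernel
  exact h

theorem slf10_ok : PSok [3, 4, 2, 5, 6, 7, 8, 9, 10, 11] slf10 := by
  have h : ∀ r < 54, ∀ c < 54, Nat.testBit slf10 (128 * r + c) = true →
    sp [3, 4, 2, 5, 6, 7, 8, 9, 10, 11] r c = true := by
    decide +kernel
  exact h

theorem slf11_ok : PSok [3, 4, 2, 5, 6, 7, 8, 9, 10, 11, 12] slf11 := by
  have h : ∀ r < 54, ∀ c < 54, Nat.testBit slf11 (128 * r + c) = true →
    sp [3, 4, 2, 5, 6, 7, 8, 9, 10, 11, 12] r c = true := by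
    decide +kernel
  exact h

end Pool.Agent.Lib.MP_147277_coZ
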